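import Pool.Agent.Work.MP_c20ce7_bA.ModDefs

set_option autoImplicit false
set_option linter.unusedSectionVars false

/-!
# BASE, the source module (helper69): `VS` and `VGen` for `WB`
-/

open MvPolynomial

noncomputable section

namespace Pool.DM

attribute [local instance] instAddCommGroupM instModuleMvPolynomialComplexM instModuleComplexLoc

theorem WB_x (g h : Ach) (k : ℕ) : WB.x g (pmk GT h k) = pmk GT (g * h) k :=
  pw_x GT 0 g h k

theorem pmk_cancel_pow (k : ℕ) (h : Ach) (n : ℕ) : pmk GT (GT ^ k * h) (n + k) = pmk GT h n := by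
  induction k generalizing h n with
  | zero => rw [pow_zero, one_mul, add_zero]
  | succ k ih =>
    rw [← add_assoc, pow_succ', mul_assoc, pmk_cancel]
    exact ih h n

theorem WB_frac (u : BMod) : ∃ (N : ℕ) (h : Ach), WB.x (GT ^ N) u = WB.x h v0 := by
  obtain ⟨h, k, rfl⟩ := pmk_surj GT u
  refine ⟨k, h, ?_⟩
  rw [WB_x, v0, WB_x, mul_one]
  have := pmk_cancel_pow k h 0
  rwa [zero_add] at this

theorem WB_inj : Function.Injective (WB.x GT) := (pl_isLoc GT).bij.1

theorem WB_d_v0 (k : Tau) : WB.x DelT (WB.d (X k) v0) = (-(1 / 2) : ℂ) • WB.x (pderiv k DelT) v0 := by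
  have h0 : (WMod.pl GT).d (X k) v0 = 0 := by
    have h1 := (pl_isLoc GT).hd k (1 : Ach)
    rw [poly_d, pderiv_one, map_zero] at h1
    exact h1.symm
  have h1 : WB.d (X k) v0 = (-(1 / 2) : ℂ) • ((WMod.pl GT).x (pderiv k DelT) * xinv DelT_bij) v0 := by
    rw [WB, WMod.tw_d, LinearMap.add_apply, h0, zero_add, LinearMap.smul_apply]
  rw [h1, map_smul, Module.End.mul_apply]
  congr 1
  change (WMod.pl GT).x DelT ((WMod.pl GT).x (pderiv k DelT) (xinv DelT_bij v0)) = _
  rw [← Module.End.mul_apply ((WMod.pl GT).x DelT), ← map_mul, mul_comm, map_mul, Module.End.mul_apply, x_xinv]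
  rfl

theorem DelT_N {k : Tau} (hk : ¬ SlT k) : pderiv k DelT = 0 :=
  psS_pd_N (κ := kaT) epT (fun q hq => hk (by rw [← hq]; exact kaT_sl q)) Del

/-- The hypotheses of `VS`. -/
theorem WB_vs : VS kaT epT WB v0 where
  inj := kaT_inj
  sgn := epT_sq
  dinj := DelT_bij.1
  d q := WB_d_v0 (kaT q)

/-! ## Degrees -/

/-- The degree of `Δ` in the coordinates. -/
theorem phA_psS {σ : Type} [Fintype σ] [DecidableEq σ] (A : σ → Prop) (κ : Q4 → σ) (ε : Q4 → ℂ) (h : ∀ q, A (κ q)) :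
    phA A (DelS κ ε) = Polynomial.X ^ 8 * Polynomial.C (DelS κ ε) := by
  have hX : ∀ q, phA A (psS κ ε (X q)) = Polynomial.X * Polynomial.C (psS κ ε (X q)) := by
    intro q
    rw [psS_X, map_mul, phA_X_A A (h q), Polynomial.C_mul, ← MvPolynomial.algebraMap_eq, AlgHom.commutes,
      Polynomial.algebraMap_apply]
    ring
  rw [DelS, Del]
  simp only [dl3, trc, dt2, ml2, bm, Fin.sum_univ_two, map_sub, map_add, map_mul, map_pow, hX, map_ofNat]
  ring

theorem kaT0 (a b : Fin 2) : kaT (0, a, b) = (.p, b, a) := rfl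

theorem kaT1 (a b : Fin 2) : kaT (1, a, b) = (.ka, b, a) := rfl

theorem kaT2 (a b : Fin 2) : kaT (2, a, b) = (.ze, 1 - a, 1 - b) := rfl

theorem kaT3 (a b : Fin 2) : kaT (3, a, b) = (.r, 1 - a, 1 - b) := rfl

theorem DelT_ne : DelT ≠ 0 := by
  intro h
  have h1 := congrArg (eval (fun k : Tau => if k.1 = .p ∧ k.2.1 = k.2.2 ∧ k.2.1 = 0 ∨ k.1 ≠ .p ∧ k.2.1 = k.2.2
    then (1 : ℂ) else 0)) h
  rw [map_zero, DelT, DelS, Del] at h1
  simp only [dl3, trc, dt2, ml2, bm, Fin.sum_univ_two, map_sub, map_add, map_mul, map_pow, map_ofNat, psS_X,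
    eval_X, eval_C, kaT0, kaT1, kaT2, kaT3, epT] at h1
  norm_num at h1
  exact absurd (h1 (by decide)) (by decide)

theorem DelT_deg : DegEx SlT DelT 8 := by
  have h := phA_psS SlT kaT epT kaT_sl
  constructor
  · rw [DelT, h]
    exact (Polynomial.natDegree_mul_C_le _ _).trans (Polynomial.natDegree_X_pow_le 8)
  · rw [DelT, h, Polynomial.coeff_mul_C, Polynomial.coeff_X_pow, if_pos rfl, one_mul]
    exact DelT_ne

theorem det_ne (N : Bk) : (mm N).det ≠ 0 := by
  intro h
  have h1 := congrArg (eval (fun k : Tau => if k.2.1 = k.2.2 then (1 : ℂ) else 0)) h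
  simp [Matrix.det_fin_two, mm] at h1

theorem q0_ne : q0 ≠ 0 := by
  unfold q0
  exact mul_ne_zero (mul_ne_zero (mul_ne_zero (det_ne _) (det_ne _)) (det_ne _)) (det_ne _)

theorem GT_ne : GT ≠ 0 := mul_ne_zero q0_ne DelT_ne

theorem det_deg {N : Bk} (hN : ¬ SlT (N, 0, 0)) : DegEx SlT (mm N).det 0 := by
  have h1 : ∀ s t, ¬ SlT (N, s, t) := fun s t h => hN h
  have h : phA SlT (mm N).det = Polynomial.C (mm N).det := by
    simp only [Matrix.det_fin_two, mm, map_sub, map_mul, phA_X_N SlT (h1 _ _)]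
  constructor
  · rw [h, Polynomial.natDegree_C]
  · rw [h, Polynomial.coeff_C_zero]
    exact det_ne N

theorem q0_deg : DegEx SlT q0 0 := by
  have h1 := det_deg (N := .a) (by decide)
  have h2 := det_deg (N := .q) (by decide)
  have h3 := det_deg (N := .u) (by decide)
  have h4 := det_deg (N := .l) (by decide)
  exact ((h1.mul h2).mul h3).mul h4

theorem GT_deg : DegEx SlT GT 8 := by
  have := q0_deg.mul DelT_deg
  rwa [zero_add] at this

theorem WB_d_v0' (k : Tau) :
    WB.x GT (WB.d (X k) v0) = WB.x (C (-(1 / 2)) * (q0 * pderiv k DelT)) v0 := by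
  have e : WB.x GT = WB.x q0 * WB.x DelT := by
    rw [← map_mul]
    rfl
  rw [e, Module.End.mul_apply, WB_d_v0, map_smul, WB.x_x_app, ← smul_eq_C_mul, map_smul, LinearMap.smul_apply]

/-- The hypotheses of `VGen`. -/
theorem WB_vgen : WB.VGen SlT GT 8 v0 where
  deg := GT_deg
  inj := WB_inj
  free h hh := by
    rw [v0, WB_x, mul_one] at hh
    exact (pmk_eq_zero GT_ne h 0).1 hh
  frac := WB_frac
  dA k hk := by
    refine ⟨_, ?_, WB_d_v0' k⟩
    have := DegLe.mul (DegLe.C (A := SlT) (-(1 / 2))) (DegLe.mul q0_deg.le (DelT_deg.le.pd_A hk))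
    exact this.mono (by norm_num)
  dN k hk := by
    refine ⟨_, ?_, WB_d_v0' k⟩
    have := DegLe.mul (DegLe.C (A := SlT) (-(1 / 2))) (DegLe.mul q0_deg.le (DelT_deg.le.pd_N hk))
    exact this.mono (by norm_num)

/-- **(b)** -/
theorem Wc_inCh (u : BMod) (hu : u ≠ 0) (x ξ : Tau → ℂ) (hx : ∀ k, SlT k → x k = 0)
    (hξ : ∀ k, ¬ SlT k → ξ k = 0) : Wc.InChAt u x ξ :=
  VGen.inCh WB_vgen Wc_four u hu x ξ hx hξ

/-! ## The growth -/

theorem WB_growth : WB.Growth := ((pl_isLoc GT).growth poly_growth).tw _ _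

theorem Wc_growth : Wc.Growth := by
  obtain ⟨G, c, hG⟩ := WB_growth
  refine ⟨G, c, ⟨hG.mono, hG.fin, ?_, ?_, hG.exh, hG.bound⟩⟩
  · intro k i v hv
    by_cases hi : SlT i
    · rw [Wc_four.xA i hi]
      exact hG.hd k i v hv
    · rw [Wc_four.xN i hi]
      exact hG.hx k i v hv
  · intro k i v hv
    by_cases hi : SlT i
    · rw [Wc_four.dA i hi, LinearMap.neg_apply]
      exact Submodule.neg_mem _ (hG.hx k i v hv)
    · rw [Wc_four.dN i hi]
      exact hG.hd k i v hv

/-! ## The functions of the base variables -/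

theorem Wc_det {N : Bk} (hN : ¬ SlT (N, 0, 0)) : Wc.x (mm N).det = WB.x (mm N).det := by
  have h1 : ∀ s t, ¬ SlT (N, s, t) := fun s t h => hN h
  simp only [Matrix.det_fin_two, mm, map_sub, map_mul, Wc_four.xN _ (h1 _ _)]

theorem Wc_q0_eq : Wc.x q0 = WB.x q0 := by
  simp only [q0, map_mul]
  rw [Wc_det (N := .a) (by decide), Wc_det (N := .q) (by decide), Wc_det (N := .u) (by decide),
    Wc_det (N := .l) (by decide)]

theorem bij_of_dvd {W : WMod Tau BMod} {f g : Ach} (h : f ∣ g) (hg : Function.Bijective (W.x g)) :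
    Function.Bijective (W.x f) := by
  obtain ⟨r, rfl⟩ := h
  refine ⟨?_, ?_⟩
  · have h1 := hg.1
    rw [mul_comm, map_mul] at h1
    exact Function.Injective.of_comp (f := W.x r) h1
  · have h1 := hg.2
    rw [map_mul] at h1
    exact Function.Surjective.of_comp (g := W.x r) h1

theorem WB_q0_bij : Function.Bijective (WB.x q0) :=
  bij_of_dvd (W := WB) ⟨DelT, rfl⟩ (pl_isLoc GT).bij

/-- `q0` is bijective. -/
theorem Wc_q0 : Function.Bijective (Wc.x q0) := by
  rw [Wc_q0_eq]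
  exact WB_q0_bij

theorem V0_ne : V0 ≠ 0 := by
  intro h
  rw [V0, pmk_eq_zero GT_ne] at h
  exact mul_ne_zero (mul_ne_zero (mul_ne_zero (pow_ne_zero _ (det_ne _)) (pow_ne_zero _ (det_ne _)))
    (pow_ne_zero _ (det_ne _))) (pow_ne_zero _ DelT_ne) h

end Pool.DM
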