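import Pool.Agent.Work.MP_c20ce7_bA.KS
import Pool.Agent.Work.MP_c20ce7_dm93.Blk
import Pool.Agent.Work.MP_c20ce7_dm82.FrF

set_option autoImplicit false
set_option linter.unusedSectionVars false

/-!
# BASE, source side: `Stmt_SRC`
-/

open MvPolynomial

noncomputable section

namespace Pool.DM

attribute [local instance] instAddCommGroupM instModuleMvPolynomialComplexM instModuleComplexLoc

theorem Wc_semiOn : SemiOn Wc V0 := by
  intro W' hx hd
  refine ⟨fun a => wt0 a.1, fun a b hab => ?_⟩
  rw [semi Wc Wc_semiV Wc_q0.1 W' hx hd a b hab, chi0]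

/-- **SRC** -/
theorem p_SRC : Stmt_SRC := src_fin Wc_blk Wc_semiOn

end Pool.DM
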