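import Pool.Agent.Work.MP_c20ce7_dm90.T2

set_option autoImplicit false

/-!
# BASE, function side: the polynomial `Δ = tr(B₀B₁B₂B₃)² - 4 det(B₀B₁B₂B₃)` and `v = Δ^(-1/2)` (helper69)

Coordinates `(i, a, b)`, `i : Fin 4`, `a b : Fin 2`.
-/

open MvPolynomial

noncomputable section

namespace Pool.DM

/-- The coordinates of `M_2(ℂ)^4`. -/
abbrev Q4 : Type := Fin 4 × Fin 2 × Fin 2

/-- The trace of `p q s`. -/
def trc {R : Type} [CommRing R] (p q s : Fin 2 → Fin 2 → R) : R :=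
  ∑ a, ∑ b, ∑ c, p a b * q b c * s c a

/-- The determinant. -/
def dt2 {R : Type} [CommRing R] (p : Fin 2 → Fin 2 → R) : R := p 0 0 * p 1 1 - p 0 1 * p 1 0

/-- The product. -/
def ml2 {R : Type} [CommRing R] (p q : Fin 2 → Fin 2 → R) : Fin 2 → Fin 2 → R :=
  fun a c => ∑ b, p a b * q b c

/-- `Δ` as a function of `p`, `q` and `s`. -/
def dl3 {R : Type} [CommRing R] (p q s : Fin 2 → Fin 2 → R) : R :=
  trc p q s ^ 2 - 4 * (dt2 p * dt2 q * dt2 s)

/-- The matrix `B_i`. -/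
def bm (i : Fin 4) : Fin 2 → Fin 2 → MvPolynomial Q4 ℂ := fun a b => X (i, a, b)

/-- `Δ`. -/
def Del : MvPolynomial Q4 ℂ := dl3 (bm 0) (bm 1) (ml2 (bm 2) (bm 3))

theorem Del_rot (i : Fin 4) : Del = dl3 (bm i) (bm (i + 1)) (ml2 (bm (i + 2)) (bm (i + 3))) := by
  have h0 : (0 : Fin 4) + 1 = 1 := rfl
  have h1 : (0 : Fin 4) + 2 = 2 := rfl
  have h2 : (0 : Fin 4) + 3 = 3 := rfl
  have h3 : (1 : Fin 4) + 1 = 2 := rfl
  have h4 : (1 : Fin 4) + 2 = 3 := rfl
  have h5 : (1 : Fin 4) + 3 = 0 := rfl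
  have h6 : (2 : Fin 4) + 1 = 3 := rfl
  have h7 : (2 : Fin 4) + 2 = 0 := rfl
  have h8 : (2 : Fin 4) + 3 = 1 := rfl
  have h9 : (3 : Fin 4) + 1 = 0 := rfl
  have h10 : (3 : Fin 4) + 2 = 1 := rfl
  have h11 : (3 : Fin 4) + 3 = 2 := rfl
  fin_cases i
  · simp only [Del, Fin.zero_eta, h0, h1, h2]
  · simp only [Del, Fin.mk_one, h3, h4, h5, dl3, trc, ml2, dt2, Fin.sum_univ_two]
    ring
  · simp only [Del, Fin.reduceFinMk, h6, h7, h8, dl3, trc, ml2, dt2, Fin.sum_univ_two]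
    ring
  · simp only [Del, Fin.reduceFinMk, h9, h10, h11, dl3, trc, ml2, dt2, Fin.sum_univ_two]
    ring

theorem der_four {R : Type} [CommRing R] [Algebra ℂ R] (D : Derivation ℂ R R) : D 4 = 0 := by
  have h := D.map_natCast 4
  exact_mod_cast h

theorem der_two {R : Type} [CommRing R] [Algebra ℂ R] (D : Derivation ℂ R R) : D 2 = 0 := by
  have h := D.map_natCast 2
  exact_mod_cast h

section Gen

variable {R : Type} [CommRing R] [Algebra ℂ R] (p q s : Fin 2 → Fin 2 → R)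
variable (d e : Fin 2 → Fin 2 → Derivation ℂ R R)

/-- The derivations `d = ∂/∂p`, `e = ∂/∂q`. -/
structure PQ : Prop where
  dp : ∀ a b c k, d a b (p c k) = if a = c ∧ b = k then 1 else 0
  dq : ∀ a b c k, d a b (q c k) = 0
  ds : ∀ a b c k, d a b (s c k) = 0
  ep : ∀ a b c k, e a b (p c k) = 0
  eq : ∀ a b c k, e a b (q c k) = if a = c ∧ b = k then 1 else 0
  es : ∀ a b c k, e a b (s c k) = 0

variable {p q s d e}

theorem PQ.d_f (h : PQ p q s d e) (a b : Fin 2) : d a b (dl3 p q s) =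
    2 * trc p q s * ml2 q s b a -
      4 * ((if a = b then p (1 - a) (1 - b) else - p (1 - a) (1 - b)) * dt2 q * dt2 s) := by
  simp only [dl3, trc, dt2, ml2, map_sub, der_four, Derivation.leibniz, Derivation.leibniz_pow, smul_eq_mul, map_add,
    Fin.sum_univ_two, h.dp, h.dq, h.ds]
  fin_cases a <;> fin_cases b <;> simp <;> ring

theorem PQ.e_f (h : PQ p q s d e) (b c : Fin 2) : e b c (dl3 p q s) =
    2 * trc p q s * ml2 s p c b -
      4 * ((if b = c then q (1 - b) (1 - c) else - q (1 - b) (1 - c)) * dt2 p * dt2 s) := by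
  simp only [dl3, trc, dt2, ml2, map_sub, der_four, Derivation.leibniz, Derivation.leibniz_pow, smul_eq_mul, map_add,
    Fin.sum_univ_two, h.ep, h.eq, h.es]
  fin_cases b <;> fin_cases c <;> simp <;> ring

set_option maxRecDepth 8000 in
theorem PQ.dd_f (h : PQ p q s d e) :
    2 * dl3 p q s * (d 1 1 (d 0 0 (dl3 p q s)) - d 1 0 (d 0 1 (dl3 p q s))) =
      3 * (d 0 0 (dl3 p q s) * d 1 1 (dl3 p q s) - d 0 1 (dl3 p q s) * d 1 0 (dl3 p q s)) := by
  rw [h.d_f 0 0, h.d_f 0 1, h.d_f 1 1, h.d_f 1 0]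
  simp only [dl3, trc, dt2, ml2, map_sub, mul_assoc, der_four, der_two, Derivation.leibniz, Derivation.leibniz_pow,
    smul_eq_mul, map_add, map_neg, Fin.sum_univ_two, h.dp, h.dq, h.ds, if_true, if_false, zero_ne_one, one_ne_zero,
    Fin.isValue, and_self, and_false, false_and, sub_zero, sub_self, mul_zero, zero_mul, add_zero, zero_add, mul_one]
  ring

theorem PQ.de_f (h : PQ p q s d e) (a c : Fin 2) :
    2 * dl3 p q s * (∑ b, e b c (d a b (dl3 p q s))) =
      3 * ∑ b, d a b (dl3 p q s) * e b c (dl3 p q s) := by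
  simp only [Fin.sum_univ_two]
  rw [h.d_f a 0, h.d_f a 1, h.e_f 0 c, h.e_f 1 c]
  fin_cases a <;> fin_cases c <;>
  (simp only [dl3, trc, dt2, ml2, map_sub, mul_assoc, der_four, der_two, Derivation.leibniz, Derivation.leibniz_pow,
    smul_eq_mul, map_add, map_neg, Fin.sum_univ_two, h.ep, h.eq, h.es]
   simp [h.ep, h.eq, h.es]
   ring)

/-- The infinitesimal action of `g : p ↦ p g⁻¹`, `q ↦ g q`. -/
theorem PQ.inv_f (h : PQ p q s d e) (a b : Fin 2) :
    ∑ c, q b c * e a c (dl3 p q s) = ∑ c, p c a * d c b (dl3 p q s) := by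
  simp only [Fin.sum_univ_two]
  rw [h.d_f 0 b, h.d_f 1 b, h.e_f a 0, h.e_f a 1]
  fin_cases a <;> fin_cases b <;>
  (simp only [dl3, trc, dt2, ml2, Fin.sum_univ_two]
   simp
   ring)

theorem PQ.eul_f (h : PQ p q s d e) :
    ∑ a, ∑ b, p a b * d a b (dl3 p q s) = 2 * dl3 p q s := by
  simp only [Fin.sum_univ_two]
  rw [h.d_f 0 0, h.d_f 0 1, h.d_f 1 1, h.d_f 1 0]
  simp only [dl3, trc, dt2, ml2, Fin.sum_univ_two]
  simp
  ring

end Gen

/-- The four matrices satisfy the hypotheses. -/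
theorem bm_PQ (i : Fin 4) : PQ (bm i) (bm (i + 1)) (ml2 (bm (i + 2)) (bm (i + 3)))
    (fun a b => pderiv (i, a, b)) (fun a b => pderiv (i + 1, a, b)) := by
  have h1 : i ≠ i + 1 := by fin_cases i <;> decide
  have h2 : i ≠ i + 2 := by fin_cases i <;> decide
  have h3 : i ≠ i + 3 := by fin_cases i <;> decide
  have h4 : i + 1 ≠ i + 2 := by fin_cases i <;> decide
  have h5 : i + 1 ≠ i + 3 := by fin_cases i <;> decide
  have key : ∀ (j k : Fin 4) (a b c l : Fin 2), j ≠ k →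
      pderiv (j, a, b) (X (k, c, l) : MvPolynomial Q4 ℂ) = 0 := by
    intro j k a b c l hjk
    rw [pderiv_X_of_ne]
    intro h
    exact hjk (congrArg Prod.fst h).symm
  have key2 : ∀ (j : Fin 4) (a b c l : Fin 2),
      pderiv (j, a, b) (X (j, c, l) : MvPolynomial Q4 ℂ) = if a = c ∧ b = l then 1 else 0 := by
    intro j a b c l
    by_cases h : a = c ∧ b = l
    · rw [h.1, h.2, pderiv_X_self]
      simp
    · rw [pderiv_X_of_ne, if_neg h]
      intro h'
      apply h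
      simp only [Prod.mk.injEq, true_and] at h'
      exact ⟨h'.1.symm, h'.2.symm⟩
  refine ⟨?_, ?_, ?_, ?_, ?_, ?_⟩
  · intro a b c k; exact key2 i a b c k
  · intro a b c k; exact key i _ a b c k h1
  · intro a b c k
    simp only [ml2, bm, Fin.sum_univ_two, map_add, Derivation.leibniz, key _ _ _ _ _ _ h2, key _ _ _ _ _ _ h3,
      smul_zero, add_zero]
  · intro a b c k; exact key _ _ a b c k h1.symm
  · intro a b c k; exact key2 _ a b c k
  · intro a b c k
    simp only [ml2, bm, Fin.sum_univ_two, map_add, Derivation.leibniz, key _ _ _ _ _ _ h4, key _ _ _ _ _ _ h5,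
      smul_zero, add_zero]

/-- `2 Δ det(∂∂Δ) = 3 det(∂Δ)`. -/
theorem Del_dd (i : Fin 4) :
    2 * Del * (pderiv (i, 1, 1) (pderiv (i, 0, 0) Del) - pderiv (i, 1, 0) (pderiv (i, 0, 1) Del)) =
      3 * (pderiv (i, 0, 0) Del * pderiv (i, 1, 1) Del - pderiv (i, 0, 1) Del * pderiv (i, 1, 0) Del) := by
  rw [Del_rot i]
  exact (bm_PQ i).dd_f

theorem Del_de (i : Fin 4) (a c : Fin 2) :
    2 * Del * (∑ b, pderiv (i + 1, b, c) (pderiv (i, a, b) Del)) =
      3 * ∑ b, pderiv (i, a, b) Del * pderiv (i + 1, b, c) Del := by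
  rw [Del_rot i]
  exact (bm_PQ i).de_f a c

theorem Del_inv (i : Fin 4) (a b : Fin 2) :
    ∑ c, X (i + 1, b, c) * pderiv (i + 1, a, c) Del = ∑ c, X (i, c, a) * pderiv (i, c, b) Del := by
  rw [Del_rot i]
  exact (bm_PQ i).inv_f a b

theorem Del_eul (i : Fin 4) : ∑ a, ∑ b, X (i, a, b) * pderiv (i, a, b) Del = 2 * Del := by
  rw [Del_rot i]
  exact (bm_PQ i).eul_f

end Pool.DM
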