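import Pool.Agent.Work.MP_c20ce7_bA.Vec
import Pool.Agent.Work.MP_c20ce7_up.Defs

set_option autoImplicit false
set_option linter.unusedSectionVars false

/-!
# BASE, the characteristic variety of the partial Fourier transform (helper69)

`A : σ → Prop` is the set of the coordinates in which we take the Fourier transform. `DegLe A h r`: the degree of the
polynomial `h` in the variables of `A` is at most the integer `r`.
-/

open MvPolynomial

noncomputable section

namespace Pool.DM

variable {σ : Type} [Fintype σ] [DecidableEq σ] {L : Type} [AddCommGroup L] [Module ℂ L]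

section Deg

variable (A : σ → Prop)

open Classical in
/-- Multiply the variables of `A` by a new variable. -/
def phA : MvPolynomial σ ℂ →ₐ[ℂ] Polynomial (MvPolynomial σ ℂ) :=
  aeval fun k => if A k then Polynomial.X * Polynomial.C (X k) else Polynomial.C (X k)

theorem phA_X_A {k : σ} (h : A k) : phA A (X k) = Polynomial.X * Polynomial.C (X k) := by
  rw [phA, aeval_X, if_pos h]

theorem phA_X_N {k : σ} (h : ¬ A k) : phA A (X k) = Polynomial.C (X k) := by
  rw [phA, aeval_X, if_neg h]

theorem phA_eval (h : MvPolynomial σ ℂ) : (phA A h).eval 1 = h := by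
  induction h using MvPolynomial.induction_on with
  | C a =>
    rw [← MvPolynomial.algebraMap_eq, AlgHom.commutes]
    rw [Polynomial.algebraMap_apply, Polynomial.eval_C]
  | add p q hp hq => rw [map_add, Polynomial.eval_add, hp, hq]
  | mul_X p k hp =>
    rw [map_mul, Polynomial.eval_mul, hp]
    by_cases hk : A k
    · rw [phA_X_A A hk]
      simp
    · rw [phA_X_N A hk]
      simp

theorem phA_ne {h : MvPolynomial σ ℂ} (h0 : h ≠ 0) : phA A h ≠ 0 := by
  intro h1
  apply h0
  rw [← phA_eval A h, h1, Polynomial.eval_zero]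

/-- The degree in the variables of `A` is at most `r`. -/
def DegLe (h : MvPolynomial σ ℂ) (r : ℤ) : Prop := ∀ j : ℕ, r < (j : ℤ) → (phA A h).coeff j = 0

/-- The degree in the variables of `A` is `r`. -/
def DegEx (h : MvPolynomial σ ℂ) (r : ℕ) : Prop := (phA A h).natDegree ≤ r ∧ (phA A h).coeff r ≠ 0

variable {A}

theorem DegLe.mono {h : MvPolynomial σ ℂ} {r s : ℤ} (h1 : DegLe A h r) (hrs : r ≤ s) : DegLe A h s :=
  fun j hj => h1 j (lt_of_le_of_lt hrs hj)

theorem DegLe.add {h g : MvPolynomial σ ℂ} {r : ℤ} (h1 : DegLe A h r) (h2 : DegLe A g r) : DegLe A (h + g) r := by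
  intro j hj
  rw [map_add, Polynomial.coeff_add, h1 j hj, h2 j hj, add_zero]

theorem DegLe.mul {h g : MvPolynomial σ ℂ} {r s : ℤ} (h1 : DegLe A h r) (h2 : DegLe A g s) :
    DegLe A (h * g) (r + s) := by
  intro j hj
  rw [map_mul, Polynomial.coeff_mul]
  refine Finset.sum_eq_zero fun x hx => ?_
  have hx' : x.1 + x.2 = j := by simpa using hx
  by_cases hr : r < (x.1 : ℤ)
  · rw [h1 _ hr, zero_mul]
  · rw [h2 x.2, mul_zero]
    have : (x.1 : ℤ) + x.2 = j := by exact_mod_cast hx'
    omega

theorem DegLe.C (a : ℂ) : DegLe A (C a) 0 := by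
  intro j hj
  have h1 : phA A (MvPolynomial.C a) = Polynomial.C (MvPolynomial.C a) := by
    rw [← MvPolynomial.algebraMap_eq, AlgHom.commutes, Polynomial.algebraMap_apply]
  rw [h1, Polynomial.coeff_C, if_neg]
  omega

theorem DegLe.zero (r : ℤ) : DegLe A (0 : MvPolynomial σ ℂ) r := by
  intro j _
  rw [map_zero, Polynomial.coeff_zero]

theorem DegLe.X_A {k : σ} (hk : A k) : DegLe A (X k) 1 := by
  intro j hj
  rw [phA_X_A A hk, Polynomial.X_mul_C, Polynomial.coeff_C_mul, Polynomial.coeff_X, if_neg, mul_zero]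
  omega

theorem DegLe.X_N {k : σ} (hk : ¬ A k) : DegLe A (X k) 0 := by
  intro j hj
  rw [phA_X_N A hk, Polynomial.coeff_C, if_neg]
  omega

theorem DegEx.le {h : MvPolynomial σ ℂ} {r : ℕ} (h1 : DegEx A h r) : DegLe A h r := by
  intro j hj
  exact Polynomial.coeff_eq_zero_of_natDegree_lt (lt_of_le_of_lt h1.1 (by exact_mod_cast hj))

theorem DegEx.mul {h g : MvPolynomial σ ℂ} {r s : ℕ} (h1 : DegEx A h r) (h2 : DegEx A g s) :
    DegEx A (h * g) (r + s) := by
  constructor
  · rw [map_mul]
    exact Polynomial.natDegree_mul_le.trans (add_le_add h1.1 h2.1)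
  · rw [map_mul, Polynomial.coeff_mul_add_eq_of_natDegree_le h1.1 h2.1]
    exact mul_ne_zero h1.2 h2.2

theorem DegEx.pow {h : MvPolynomial σ ℂ} {r : ℕ} (h1 : DegEx A h r) (n : ℕ) : DegEx A (h ^ n) (n * r) := by
  induction n with
  | zero =>
    rw [pow_zero, Nat.zero_mul]
    refine ⟨?_, ?_⟩
    · rw [map_one, Polynomial.natDegree_one]
    · rw [map_one, Polynomial.coeff_one_zero]
      exact one_ne_zero
  | succ n ih =>
    rw [pow_succ, Nat.succ_mul]
    exact ih.mul h1

theorem exists_degEx {h : MvPolynomial σ ℂ} (h0 : h ≠ 0) : ∃ r : ℕ, DegEx A h r :=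
  ⟨_, le_rfl, by
    rw [Polynomial.coeff_natDegree]
    exact Polynomial.leadingCoeff_ne_zero.2 (phA_ne A h0)⟩

theorem phA_pd_N {k : σ} (hk : ¬ A k) (h : MvPolynomial σ ℂ) (j : ℕ) :
    (phA A (pderiv k h)).coeff j = pderiv k ((phA A h).coeff j) := by
  induction h using MvPolynomial.induction_on generalizing j with
  | C a =>
    have h1 : phA A (C a) = Polynomial.C (C a) := by
      rw [← MvPolynomial.algebraMap_eq, AlgHom.commutes, Polynomial.algebraMap_apply]
    rw [pderiv_C, map_zero, Polynomial.coeff_zero, h1, Polynomial.coeff_C]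
    split_ifs
    · rw [pderiv_C]
    · rw [map_zero]
  | add p q hp hq =>
    rw [map_add, map_add, Polynomial.coeff_add, hp j, hq j, map_add, Polynomial.coeff_add, map_add]
  | mul_X p l hp =>
    rw [Derivation.leibniz, smul_eq_mul, smul_eq_mul, map_add, map_mul, map_mul]
    by_cases hl : A l
    · have hkl : k ≠ l := fun h => hk (h ▸ hl)
      rw [pderiv_X_of_ne hkl.symm, map_zero, mul_zero, zero_add, map_mul, phA_X_A A hl]
      cases j with
      | zero => simp
      | succ j =>
        rw [mul_assoc, mul_left_comm (phA A p), Polynomial.coeff_X_mul,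
          Polynomial.coeff_X_mul, Polynomial.coeff_mul_C, Polynomial.coeff_C_mul, hp j,
          Derivation.leibniz, pderiv_X_of_ne hkl.symm]
        simp
    · rw [map_mul, phA_X_N A hl, Polynomial.coeff_mul_C, Derivation.leibniz, Polynomial.coeff_add,
        Polynomial.coeff_C_mul, hp j]
      by_cases hkl : k = l
      · rw [hkl, pderiv_X_self, map_one, mul_one]
        simp
      · rw [pderiv_X_of_ne (Ne.symm hkl), map_zero]
        simp

theorem phA_pd_A {k : σ} (hk : A k) (h : MvPolynomial σ ℂ) (j : ℕ) :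
    (Polynomial.X * phA A (pderiv k h)).coeff j = pderiv k ((phA A h).coeff j) := by
  induction h using MvPolynomial.induction_on generalizing j with
  | C a =>
    have h1 : phA A (C a) = Polynomial.C (C a) := by
      rw [← MvPolynomial.algebraMap_eq, AlgHom.commutes, Polynomial.algebraMap_apply]
    rw [pderiv_C, map_zero, mul_zero, Polynomial.coeff_zero, h1, Polynomial.coeff_C]
    split_ifs
    · rw [pderiv_C]
    · rw [map_zero]
  | add p q hp hq =>
    rw [map_add, map_add, mul_add, Polynomial.coeff_add, hp j, hq j, map_add, Polynomial.coeff_add, map_add]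
  | mul_X p l hp =>
    rw [Derivation.leibniz, smul_eq_mul, smul_eq_mul, map_add, map_mul, map_mul]
    by_cases hl : A l
    · rw [map_mul, phA_X_A A hl]
      cases j with
      | zero => simp
      | succ j =>
        have h3 := hp j
        rw [Polynomial.coeff_X_mul, mul_left_comm (phA A p), Polynomial.coeff_X_mul, Polynomial.coeff_mul_C,
          Derivation.leibniz, Polynomial.coeff_add, mul_right_comm, Polynomial.coeff_mul_C, h3]
        by_cases hkl : k = l
        · rw [hkl, pderiv_X_self, map_one, mul_one]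
          simp [mul_comm]
        · rw [pderiv_X_of_ne (Ne.symm hkl), map_zero]
          simp [mul_comm]
    · have hkl : k ≠ l := fun h => hl (h ▸ hk)
      rw [pderiv_X_of_ne hkl.symm, map_zero, mul_zero, zero_add, map_mul, phA_X_N A hl, mul_left_comm,
        Polynomial.coeff_C_mul, Polynomial.coeff_mul_C, hp j, Derivation.leibniz, pderiv_X_of_ne hkl.symm]
      simp

theorem DegLe.pd_N {k : σ} (hk : ¬ A k) {h : MvPolynomial σ ℂ} {r : ℤ} (h1 : DegLe A h r) :
    DegLe A (pderiv k h) r := by
  intro j hj
  rw [phA_pd_N hk, h1 j hj, map_zero]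

theorem DegLe.pd_A {k : σ} (hk : A k) {h : MvPolynomial σ ℂ} {r : ℤ} (h1 : DegLe A h r) :
    DegLe A (pderiv k h) (r - 1) := by
  intro j hj
  have h2 := phA_pd_A hk h (j + 1)
  rw [Polynomial.coeff_X_mul] at h2
  rw [h2, h1 (j + 1) (by push_cast; omega), map_zero]

end Deg

end Pool.DM
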