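import Pool.Agent.Work.MP_c20ce7_bA.FT

set_option autoImplicit false
set_option linter.unusedSectionVars false

/-!
# BASE, the characteristic variety of the partial Fourier transform, II (helper69)
-/

open MvPolynomial

noncomputable section

namespace Pool.DM

variable {σ : Type} [Fintype σ] [DecidableEq σ] {L : Type} [AddCommGroup L] [Module ℂ L]

/-- A filtration by the degree in the variables of `A`. -/
structure WMod.YFilt (W : WMod σ L) (A : σ → Prop) (Φ : ℤ → Submodule ℂ L) : Prop where
  mono : Monotone Φ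
  xN : ∀ k, ¬ A k → ∀ r, ∀ u ∈ Φ r, W.x (X k) u ∈ Φ r
  dN : ∀ k, ¬ A k → ∀ r, ∀ u ∈ Φ r, W.d (X k) u ∈ Φ r
  xA : ∀ k, A k → ∀ r, ∀ u ∈ Φ r, W.x (X k) u ∈ Φ (r + 1)
  dA : ∀ k, A k → ∀ r, ∀ u ∈ Φ r, W.d (X k) u ∈ Φ (r - 1)
  lead : ∀ u, u ≠ 0 → ∃ r, u ∈ Φ r ∧ ∀ (m : ℕ) (p : MvPolynomial σ ℂ), p ≠ 0 → DegEx A p m →
    W.x p u ∉ Φ (r + m - 1)

section

variable {A : σ → Prop} {W V : WMod σ L} {Φ : ℤ → Submodule ℂ L}

open Classical in
/-- The degree of a monomial in the variables of `A`. -/
def dgA (A : σ → Prop) (b : σ →₀ ℕ) : ℕ := ∑ k, if A k then b k else 0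

theorem dgA_add (a b : σ →₀ ℕ) : dgA A (a + b) = dgA A a + dgA A b := by
  classical
  rw [dgA, dgA, dgA, ← Finset.sum_add_distrib]
  refine Finset.sum_congr rfl fun k _ => ?_
  split_ifs <;> simp

theorem YF_dmon (hF : W.YFilt A Φ) (hV : IsFour A W V) (b : σ →₀ ℕ) :
    ∀ r, ∀ u ∈ Φ r, V.d (monomial b 1) u ∈ Φ (r + dgA A b) := by
  classical
  induction b using Finsupp.induction_linear with
  | zero =>
    intro r u hu
    have : dgA A (0 : σ →₀ ℕ) = 0 := by simp [dgA]
    rw [this]
    simpa using hu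
  | add a b ha hb =>
    intro r u hu
    rw [← mul_one (1 : ℂ), ← monomial_mul, map_mul, Module.End.mul_apply, dgA_add]
    have := ha _ _ (hb r u hu)
    push_cast
    rwa [add_assoc, add_comm (dgA A b : ℤ)] at this
  | single k n =>
    have h1 : dgA A (Finsupp.single k n) = if A k then n else 0 := by
      rw [dgA, Finset.sum_eq_single k]
      · simp
      · intro l _ hl
        rw [Finsupp.single_eq_of_ne hl]
        simp
      · intro h; exact absurd (Finset.mem_univ k) h
    have h2 : ∀ n : ℕ, V.d (monomial (Finsupp.single k n) 1) = V.d (X k) ^ n := by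
      intro n
      rw [← map_pow, X_pow_eq_monomial]
    rw [h1, h2]
    induction n with
    | zero =>
      intro r u hu
      simpa using hu
    | succ n ih =>
      intro r u hu
      have h3 : dgA A (Finsupp.single k n) = if A k then n else 0 := by
        rw [dgA, Finset.sum_eq_single k]
        · simp
        · intro l _ hl
          rw [Finsupp.single_eq_of_ne hl]
          simp
        · intro h; exact absurd (Finset.mem_univ k) h
      have h4 := ih h3 r u hu
      rw [pow_succ', Module.End.mul_apply]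
      generalize (V.d (X k) ^ n) u = w at h4 ⊢
      by_cases hk : A k
      · rw [if_pos hk] at h4 ⊢
        rw [hV.dA k hk, LinearMap.neg_apply]
        have h5 := hF.xA k hk _ _ h4
        push_cast
        rw [← add_assoc]
        exact (Φ _).neg_mem h5
      · rw [if_neg hk] at h4 ⊢
        rw [hV.dN k hk]
        exact hF.dN k hk _ _ h4

theorem YF_xmon (hF : W.YFilt A Φ) (hV : IsFour A W V) (b : σ →₀ ℕ) :
    ∀ r, ∀ u ∈ Φ r, V.x (monomial b 1) u ∈ Φ (r - dgA A b) := by
  classical
  induction b using Finsupp.induction_linear with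
  | zero =>
    intro r u hu
    have : dgA A (0 : σ →₀ ℕ) = 0 := by simp [dgA]
    rw [this]
    simpa using hu
  | add a b ha hb =>
    intro r u hu
    rw [← mul_one (1 : ℂ), ← monomial_mul, map_mul, Module.End.mul_apply, dgA_add]
    have := ha _ _ (hb r u hu)
    push_cast
    rwa [sub_sub, add_comm (dgA A b : ℤ)] at this
  | single k n =>
    have h0 : ∀ n : ℕ, dgA A (Finsupp.single k n) = if A k then n else 0 := by
      intro n
      rw [dgA, Finset.sum_eq_single k]
      · simp
      · intro l _ hl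
        rw [Finsupp.single_eq_of_ne hl]
        simp
      · intro h; exact absurd (Finset.mem_univ k) h
    have h2 : ∀ n : ℕ, V.x (monomial (Finsupp.single k n) 1) = V.x (X k) ^ n := by
      intro n
      rw [← map_pow, X_pow_eq_monomial]
    rw [h0, h2]
    induction n with
    | zero =>
      intro r u hu
      simpa using hu
    | succ n ih =>
      intro r u hu
      have h4 := ih r u hu
      rw [pow_succ', Module.End.mul_apply]
      generalize (V.x (X k) ^ n) u = w at h4 ⊢
      by_cases hk : A k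
      · rw [if_pos hk] at h4 ⊢
        rw [hV.xA k hk]
        have h5 := hF.dA k hk _ _ h4
        push_cast
        rw [← sub_sub]
        exact h5
      · rw [if_neg hk] at h4 ⊢
        rw [hV.xN k hk]
        exact hF.xN k hk _ _ h4

/-- The monomials of functions in the variables outside `A` are the same. -/
theorem YF_xmon_eq (hV : IsFour A W V) (b : σ →₀ ℕ) (hb : ∀ k, A k → b k = 0) :
    V.x (monomial b 1) = W.x (monomial b 1) := by
  classical
  induction b using Finsupp.induction_linear with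
  | zero => 
    have : (monomial (0 : σ →₀ ℕ) (1 : ℂ)) = 1 := rfl
    rw [this, map_one, map_one]
  | add a b ha hb' =>
    have h1 : ∀ k, A k → a k = 0 ∧ b k = 0 := by
      intro k hk
      have := hb k hk
      rw [Finsupp.add_apply] at this
      omega
    rw [← mul_one (1 : ℂ), ← monomial_mul, map_mul, map_mul, ha fun k hk => (h1 k hk).1,
      hb' fun k hk => (h1 k hk).2]
  | single k n =>
    rw [← X_pow_eq_monomial, map_pow, map_pow]
    by_cases hk : A k
    · have := hb k hk
      rw [Finsupp.single_eq_same] at this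
      rw [this, pow_zero, pow_zero]
    · rw [hV.xN k hk]

theorem YF_dmon_eq (hV : IsFour A W V) (b : σ →₀ ℕ) (hb : ∀ k, ¬ A k → b k = 0) :
    V.d (monomial b 1) = (-1 : ℂ) ^ (∑ k, b k) • W.x (monomial b 1) := by
  classical
  induction b using Finsupp.induction_linear with
  | zero =>
    have : (monomial (0 : σ →₀ ℕ) (1 : ℂ)) = 1 := rfl
    rw [this, map_one, map_one]
    simp
  | add a b ha hb' =>
    have h1 : ∀ k, ¬ A k → a k = 0 ∧ b k = 0 := by
      intro k hk
      have := hb k hk
      rw [Finsupp.add_apply] at this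
      omega
    have h2 : ∑ k, (a + b) k = ∑ k, a k + ∑ k, b k := by
      rw [← Finset.sum_add_distrib]
      rfl
    have e1 : (monomial (a + b) (1 : ℂ)) = monomial a 1 * monomial b 1 := by rw [monomial_mul, mul_one]
    rw [e1, map_mul, map_mul, ha fun k hk => (h1 k hk).1,
      hb' fun k hk => (h1 k hk).2, h2, pow_add, smul_mul_smul_comm]
  | single k n =>
    have h3 : ∑ l, (Finsupp.single k n) l = n := by
      rw [Finset.sum_eq_single k]
      · rw [Finsupp.single_eq_same]
      · intro l _ hl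
        rw [Finsupp.single_eq_of_ne hl]
      · intro h; exact absurd (Finset.mem_univ k) h
    rw [← X_pow_eq_monomial, map_pow, map_pow, h3]
    by_cases hk : A k
    · rw [hV.dA k hk, ← neg_one_smul ℂ (W.x (X k)), smul_pow]
    · have := hb k hk
      rw [Finsupp.single_eq_same] at this
      rw [this, pow_zero, pow_zero, pow_zero, one_smul]

open Classical in
/-- The contribution of a monomial to the leading part. -/
def ldM (A : σ → Prop) (m : ℕ) (e : σ ⊕ σ →₀ ℕ) (c : ℂ) : MvPolynomial σ ℂ :=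
  if (∀ k, A k → e (Sum.inl k) = 0) ∧ (∀ k, ¬ A k → e (Sum.inr k) = 0) ∧ ∑ k, e (Sum.inr k) = m then
    monomial ((Finsupp.sumFinsuppEquivProdFinsupp e).1 + (Finsupp.sumFinsuppEquivProdFinsupp e).2)
      ((-1) ^ m * c)
  else 0

theorem YF_mon (hF : W.YFilt A Φ) (hV : IsFour A W V) (m : ℕ) (e : σ ⊕ σ →₀ ℕ) (c : ℂ)
    (he : ∑ k, e (Sum.inr k) ≤ m) (r : ℤ) (u : L) (hu : u ∈ Φ r) :
    V.nf (monomial e c) u - W.x (ldM A m e c) u ∈ Φ (r + m - 1) := by
  classical
  set a := (Finsupp.sumFinsuppEquivProdFinsupp e).1 with ha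
  set b := (Finsupp.sumFinsuppEquivProdFinsupp e).2 with hb
  have hae : ∀ k, a k = e (Sum.inl k) := fun k => rfl
  have hbe : ∀ k, b k = e (Sum.inr k) := fun k => rfl
  rw [V.nf_monomial, ← ha, ← hb, LinearMap.smul_apply, Module.End.mul_apply]
  unfold ldM
  split_ifs with h
  · rw [YF_xmon_eq hV a (fun k hk => h.1 k hk), YF_dmon_eq hV b (fun k hk => h.2.1 k hk), ← ha, ← hb]
    have h2 : ∑ k, b k = m := h.2.2
    have h3 : (monomial (a + b) ((-1) ^ m * c) : MvPolynomial σ ℂ) =
        ((-1) ^ m * c) • (monomial a 1 * monomial b 1) := by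
      rw [monomial_mul, mul_one, smul_monomial, smul_eq_mul, mul_one]
    rw [h2, h3, map_smul, map_mul, LinearMap.smul_apply, LinearMap.smul_apply, map_smul, Module.End.mul_apply,
      smul_smul, mul_comm c]
    rw [sub_self]
    exact (Φ _).zero_mem
  · rw [map_zero, LinearMap.zero_apply, sub_zero]
    refine (Φ _).smul_mem c ?_
    have h1 := YF_xmon hF hV a _ _ (YF_dmon hF hV b r u hu)
    refine hF.mono ?_ h1
    have h2 : dgA A b ≤ ∑ k, b k := by
      rw [dgA]
      exact Finset.sum_le_sum fun k _ => by split_ifs <;> omega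
    have h3 : ∑ k, b k ≤ m := he
    have h4 : ¬ (∀ k, ¬ A k → b k = 0) → dgA A b < ∑ k, b k := by
      intro hn
      push Not at hn
      obtain ⟨k, hk, hbk⟩ := hn
      rw [dgA]
      refine Finset.sum_lt_sum (fun l _ => by split_ifs <;> omega) ⟨k, Finset.mem_univ k, ?_⟩
      rw [if_neg hk]
      omega
    have h5 : ¬ (∀ k, A k → a k = 0) → 0 < dgA A a := by
      intro hn
      push Not at hn
      obtain ⟨k, hk, hak⟩ := hn
      rw [dgA]
      refine Finset.sum_pos' (fun l _ => Nat.zero_le _) ⟨k, Finset.mem_univ k, ?_⟩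
      rw [if_pos hk]
      omega
    by_cases c1 : ∀ k, A k → a k = 0
    · by_cases c2 : ∀ k, ¬ A k → b k = 0
      · have c3 : ∑ k, b k ≠ m := fun h' => h ⟨c1, c2, h'⟩
        omega
      · have := h4 c2
        omega
    · have := h5 c1
      omega

/-- The leading part. -/
def ldP (A : σ → Prop) (m : ℕ) (P : MvPolynomial (σ ⊕ σ) ℂ) : MvPolynomial σ ℂ :=
  ∑ e ∈ P.support, ldM A m e (coeff e P)

theorem wt_weight (e : σ ⊕ σ →₀ ℕ) : Finsupp.weight (wt σ) e = ∑ k, e (Sum.inr k) := by
  rw [Finsupp.weight_apply, Finsupp.sum_fintype _ _ (fun _ => by simp), Fintype.sum_sum_type]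
  simp [wt]

theorem YF_P (hF : W.YFilt A Φ) (hV : IsFour A W V) (m : ℕ) (P : MvPolynomial (σ ⊕ σ) ℂ)
    (hP : weightedTotalDegree (wt σ) P ≤ m) (r : ℤ) (u : L) (hu : u ∈ Φ r) :
    V.nf P u - W.x (ldP A m P) u ∈ Φ (r + m - 1) := by
  have h1 : V.nf P u = ∑ e ∈ P.support, V.nf (monomial e (coeff e P)) u := by
    conv_lhs => rw [P.as_sum]
    rw [map_sum, LinearMap.sum_apply]
  rw [h1, ldP, map_sum, LinearMap.sum_apply, ← Finset.sum_sub_distrib]
  refine Submodule.sum_mem _ fun e he => ?_
  refine YF_mon hF hV m e _ ?_ r u hu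
  have h2 := (le_weightedTotalDegree (wt σ) he).trans hP
  rwa [wt_weight] at h2

open Classical in
theorem phA_monomial (A : σ → Prop) (b : σ →₀ ℕ) (c : ℂ) :
    phA A (monomial b c) = Polynomial.monomial (dgA A b) (monomial b c) := by
  induction b using Finsupp.induction_linear generalizing c with
  | zero =>
    have h0 : dgA A (0 : σ →₀ ℕ) = 0 := by simp [dgA]
    have h1 : phA A (C c) = Polynomial.C (C c) := by
      rw [← MvPolynomial.algebraMap_eq, AlgHom.commutes, Polynomial.algebraMap_apply]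
    rw [h0, Polynomial.monomial_zero_left]
    exact h1
  | add a b ha hb =>
    rw [← mul_one c, ← monomial_mul, map_mul, ha, hb, Polynomial.monomial_mul_monomial, dgA_add]
  | single k n =>
    have h0 : dgA A (Finsupp.single k n) = if A k then n else 0 := by
      rw [dgA, Finset.sum_eq_single k]
      · simp
      · intro l _ hl
        rw [Finsupp.single_eq_of_ne hl]
        simp
      · intro h; exact absurd (Finset.mem_univ k) h
    have h1 : (monomial (Finsupp.single k n) c : MvPolynomial σ ℂ) = C c * X k ^ n := by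
      rw [X_pow_eq_monomial, C_mul_monomial, mul_one]
    have h2 : phA A (C c) = Polynomial.C (C c) := by
      rw [← MvPolynomial.algebraMap_eq, AlgHom.commutes, Polynomial.algebraMap_apply]
    rw [h0, h1, map_mul, map_pow, h2]
    by_cases hk : A k
    · rw [if_pos hk, phA_X_A A hk, mul_pow, ← Polynomial.C_mul_X_pow_eq_monomial, map_mul, map_pow]
      ring
    · rw [if_neg hk, phA_X_N A hk, Polynomial.monomial_zero_left, map_mul, map_pow]

theorem ldM_deg (m : ℕ) (e : σ ⊕ σ →₀ ℕ) (c : ℂ) :
    phA A (ldM A m e c) = Polynomial.monomial m (ldM A m e c) := by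
  classical
  unfold ldM
  split_ifs with h
  · rw [phA_monomial]
    congr 1
    rw [dgA_add]
    have h1 : dgA A (Finsupp.sumFinsuppEquivProdFinsupp e).1 = 0 := by
      rw [dgA]
      refine Finset.sum_eq_zero fun k _ => ?_
      split_ifs with hk
      · exact h.1 k hk
      · rfl
    have h2 : dgA A (Finsupp.sumFinsuppEquivProdFinsupp e).2 = m := by
      rw [dgA, ← h.2.2]
      refine Finset.sum_congr rfl fun k _ => ?_
      split_ifs with hk
      · rfl
      · exact (h.2.1 k hk).symm
    rw [h1, h2, zero_add]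
  · rw [map_zero, map_zero]

theorem ldP_deg (m : ℕ) (P : MvPolynomial (σ ⊕ σ) ℂ) :
    phA A (ldP A m P) = Polynomial.monomial m (ldP A m P) := by
  unfold ldP
  rw [map_sum, map_sum]
  exact Finset.sum_congr rfl fun e _ => ldM_deg m e _

theorem ldP_ex (m : ℕ) (P : MvPolynomial (σ ⊕ σ) ℂ) (h : ldP A m P ≠ 0) : DegEx A (ldP A m P) m := by
  constructor
  · rw [ldP_deg]
    exact Polynomial.natDegree_monomial_le _
  · rw [ldP_deg, Polynomial.coeff_monomial, if_pos rfl]
    exact h

open Classical in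
theorem eval_ldM (m : ℕ) (e : σ ⊕ σ →₀ ℕ) (c : ℂ) (x ξ : σ → ℂ) (hx : ∀ k, A k → x k = 0)
    (hξ : ∀ k, ¬ A k → ξ k = 0) :
    eval (Sum.elim x ξ) (weightedHomogeneousComponent (wt σ) m (monomial e c)) =
      (-1) ^ m * eval (fun k => if A k then ξ k else x k) (ldM A m e c) := by
  have h0 : ∀ z : σ → ℂ, ∀ b : σ →₀ ℕ, ∀ c' : ℂ, eval z (monomial b c') = c' * ∏ k, z k ^ b k := by
    intro z b c'
    rw [eval_monomial, Finsupp.prod_fintype _ _ (fun _ => pow_zero _)]
  have h0' : eval (Sum.elim x ξ) (monomial e c) =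
      c * ((∏ k, x k ^ e (Sum.inl k)) * ∏ k, ξ k ^ e (Sum.inr k)) := by
    rw [eval_monomial, Finsupp.prod_fintype _ _ (fun _ => pow_zero _), Fintype.prod_sum_type]
    rfl
  have h1 : weightedHomogeneousComponent (wt σ) m (monomial e c) =
      if ∑ k, e (Sum.inr k) = m then monomial e c else 0 := by
    rw [weightedHomogeneousComponent_of_mem (n := ∑ k, e (Sum.inr k))]
    · by_cases h : ∑ k, e (Sum.inr k) = m
      · rw [if_pos h, if_pos h.symm]
      · rw [if_neg h, if_neg (fun h' => h h'.symm)]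
    · exact isWeightedHomogeneous_monomial _ _ _ (wt_weight e)
  rw [h1]
  unfold ldM
  split_ifs with h2 h3
  · rw [h0', h0]
    have e1 : ∏ k, (if A k then ξ k else x k) ^
        ((Finsupp.sumFinsuppEquivProdFinsupp e).1 + (Finsupp.sumFinsuppEquivProdFinsupp e).2) k =
        (∏ k, x k ^ e (Sum.inl k)) * ∏ k, ξ k ^ e (Sum.inr k) := by
      rw [← Finset.prod_mul_distrib]
      refine Finset.prod_congr rfl fun k _ => ?_
      have e2 : ((Finsupp.sumFinsuppEquivProdFinsupp e).1 + (Finsupp.sumFinsuppEquivProdFinsupp e).2) k =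
          e (Sum.inl k) + e (Sum.inr k) := rfl
      rw [e2]
      by_cases hk : A k
      · rw [if_pos hk, h3.1 k hk, zero_add, pow_zero, one_mul]
      · rw [if_neg hk, h3.2.1 k hk, add_zero, pow_zero, mul_one]
    have e3 : ((-1 : ℂ) ^ m) * (-1) ^ m = 1 := by
      rw [← pow_add, ← two_mul, pow_mul]
      norm_num
    rw [e1]
    generalize (∏ k, x k ^ e (Sum.inl k)) * ∏ k, ξ k ^ e (Sum.inr k) = y
    linear_combination (-(c * y)) * e3
  · rw [h0', map_zero, mul_zero]
    have h4 : ¬ ((∀ k, A k → e (Sum.inl k) = 0) ∧ (∀ k, ¬ A k → e (Sum.inr k) = 0)) :=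
      fun h' => h3 ⟨h'.1, h'.2, h2⟩
    by_cases c1 : ∀ k, A k → e (Sum.inl k) = 0
    · have c2 : ¬ (∀ k, ¬ A k → e (Sum.inr k) = 0) := fun h' => h4 ⟨c1, h'⟩
      push Not at c2
      obtain ⟨k, hk, hek⟩ := c2
      rw [Finset.prod_eq_zero (f := fun k => ξ k ^ e (Sum.inr k)) (Finset.mem_univ k)
        (by rw [hξ k hk, zero_pow hek]), mul_zero, mul_zero]
    · push Not at c1
      obtain ⟨k, hk, hek⟩ := c1
      rw [Finset.prod_eq_zero (f := fun k => x k ^ e (Sum.inl k)) (Finset.mem_univ k)
        (by rw [hx k hk, zero_pow hek]), zero_mul, mul_zero]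
  · exact absurd (by tauto) h2
  · rw [map_zero, map_zero, mul_zero]

/-- **Theorem.** The characteristic variety of every nonzero vector of the partial Fourier transform contains all
`(x, ξ)` with `x = 0` on `A` and `ξ = 0` outside `A`. -/
theorem YF_inCh (hF : W.YFilt A Φ) (hV : IsFour A W V) (u : L) (hu : u ≠ 0) (x ξ : σ → ℂ)
    (hx : ∀ k, A k → x k = 0) (hξ : ∀ k, ¬ A k → ξ k = 0) : V.InChAt u x ξ := by
  classical
  intro m P hP h0
  obtain ⟨r, hr, hl⟩ := hF.lead u hu
  have h1 := YF_P hF hV m P hP r u hr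
  rw [h0, zero_sub] at h1
  have h2 : W.x (ldP A m P) u ∈ Φ (r + m - 1) := by
    have := (Φ (r + m - 1)).neg_mem h1
    rwa [neg_neg] at this
  have h3 : ldP A m P = 0 := by
    by_contra hne
    exact hl m _ hne (ldP_ex m P hne) h2
  have h4 : eval (Sum.elim x ξ) (weightedHomogeneousComponent (wt σ) m P) =
      (-1) ^ m * eval (fun k => if A k then ξ k else x k) (ldP A m P) := by
    conv_lhs => rw [P.as_sum]
    rw [map_sum, map_sum, ldP, map_sum, Finset.mul_sum]
    exact Finset.sum_congr rfl fun e _ => eval_ldM m e _ x ξ hx hξ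
  rw [h4, h3, map_zero, mul_zero]

end

end Pool.DM
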