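import Pool.Agent.Work.MP_c20ce7_bA.Mod
import Pool.Agent.Work.MP_c20ce7_bE.Src2

set_option autoImplicit false
set_option linter.unusedSectionVars false

/-!
# BASE, the source module (helper69): `KSRel` for the annihilator of `V0`
-/

open MvPolynomial

noncomputable section

namespace Pool.DM

attribute [local instance] instAddCommGroupM instModuleMvPolynomialComplexM instModuleComplexLoc

theorem mem_annI {f : Ach} : f ∈ Wc.annI V0 ↔ Wc.x f V0 = 0 := Iff.rfl

theorem annI_neg {f : Ach} (h : f ∈ Wc.annI V0) {g : Ach} (e : g = -f) : g ∈ Wc.annI V0 := by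
  rw [e]
  exact neg_mem h

/-- The minors of two rows `(x y)`, from one of them. -/
theorem rowMin {I : Ideal Ach} {x y : Fin 2 → Ach} (h : x 0 * y 1 - x 1 * y 0 ∈ I) (s t : Fin 2) :
    x s * y t - x t * y s ∈ I := by
  fin_cases s <;> fin_cases t <;> simp only [Fin.zero_eta, Fin.mk_one]
  · rw [sub_self]; exact I.zero_mem
  · exact h
  · rw [show x 1 * y 0 - x 0 * y 1 = -(x 0 * y 1 - x 1 * y 0) by ring]
    exact neg_mem h
  · rw [sub_self]; exact I.zero_mem

theorem rowSelf {I : Ideal Ach} {M : Matrix (Fin 2) (Fin 2) Ach} (h : M.det ∈ I) (i i' : Fin 2) :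
    M i 0 * M i' 1 - M i 1 * M i' 0 ∈ I := by
  rw [Matrix.det_fin_two] at h
  fin_cases i <;> fin_cases i' <;> simp only [Fin.zero_eta, Fin.mk_one]
  · rw [show M 0 0 * M 0 1 - M 0 1 * M 0 0 = 0 by ring]; exact I.zero_mem
  · exact h
  · rw [show M 1 0 * M 0 1 - M 1 1 * M 0 0 = -(M 0 0 * M 1 1 - M 0 1 * M 1 0) by ring]
    exact neg_mem h
  · rw [show M 1 0 * M 1 1 - M 1 1 * M 1 0 = 0 by ring]; exact I.zero_mem

theorem colSelf {I : Ideal Ach} {M : Matrix (Fin 2) (Fin 2) Ach} (h : M.det ∈ I) (j j' : Fin 2) :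
    M 0 j * M 1 j' - M 1 j * M 0 j' ∈ I := by
  rw [Matrix.det_fin_two] at h
  fin_cases j <;> fin_cases j' <;> simp only [Fin.zero_eta, Fin.mk_one]
  · rw [show M 0 0 * M 1 0 - M 1 0 * M 0 0 = 0 by ring]; exact I.zero_mem
  · rw [show M 0 0 * M 1 1 - M 1 0 * M 0 1 = M 0 0 * M 1 1 - M 0 1 * M 1 0 by ring]
    exact h
  · rw [show M 0 1 * M 1 0 - M 1 1 * M 0 0 = -(M 0 0 * M 1 1 - M 0 1 * M 1 0) by ring]
    exact neg_mem h
  · rw [show M 0 1 * M 1 1 - M 1 1 * M 0 1 = 0 by ring]; exact I.zero_mem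

/-- The relations of the cone kill `V0`. -/
theorem Wc_KSRel : KSRel (Wc.annI V0) where
  zr := V0_zr
  kp := V0_kp
  pr N N' hN hN' i i' s t := by
    refine rowMin (x := fun s => mm N i s) (y := fun s => mm N' i' s) ?_ s t
    rcases hN with rfl | rfl <;> rcases hN' with rfl | rfl
    · exact rowSelf (V0_det (by decide)) i i'
    · exact V0_mpr i i'
    · have h : mm .p i' 0 * mm .r i 1 - mm .p i' 1 * mm .r i 0 ∈ Wc.annI V0 := V0_mpr i' i
      refine annI_neg h ?_
      ring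
    · exact rowSelf (V0_det (by decide)) i i'
  kz N N' hN hN' j j' s t := by
    refine rowMin (x := fun s => mm N s j) (y := fun t => mm N' t j') ?_ s t
    rcases hN with rfl | rfl <;> rcases hN' with rfl | rfl
    · exact colSelf (V0_det (by decide)) j j'
    · exact V0_mkz j j'
    · have h : mm .ka 0 j' * mm .ze 1 j - mm .ka 1 j' * mm .ze 0 j ∈ Wc.annI V0 := V0_mkz j' j
      refine annI_neg h ?_
      ring
    · exact colSelf (V0_det (by decide)) j j'

/-- helper90's (b). -/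
theorem Wc_hb (η : Tau → ℂ) (hη : ∀ v : Tau, ¬ BS3.isSl v.1 → η v = 0) : Wc.InCh BS3.bp0 η := by
  refine Wc_inCh' _ _ ?_ ?_
  · rintro ⟨N, s, t⟩ hk
    rcases hk with h | h | h | h <;> (change N = _ at h; subst h; simp [BS3.bp0])
  · rintro ⟨N, s, t⟩ hk
    exact hη _ hk

/-- **SRC** from the block property and the semi-invariance. -/
theorem src_fin (hblk : ∀ N : Bk, (N = .p ∨ N = .r ∨ N = .ze ∨ N = .ka) →
      ∀ u : BMod, (∀ s t, Wc.x (X (N, s, t)) u = 0) → u = 0) (hsem : SemiOn Wc V0) : Stmt_SRC :=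
  src_of2 Wc Wc_q0 Wc_growth V0 V0_ne Wc_KSRel hsem hblk Wc_hb

end Pool.DM
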