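import Pool.Agent.Work.MP_c20ce7_bA.FTC

set_option autoImplicit false
set_option linter.unusedSectionVars false

/-!
# BASE, the filtration by the degree in the variables of `A` (helper69)
-/

open MvPolynomial

noncomputable section

namespace Pool.DM

variable {σ : Type} [Fintype σ] [DecidableEq σ] {L : Type} [AddCommGroup L] [Module ℂ L]

/-- A module generated by the vector `v` and the inverse of `G`. -/
structure WMod.VGen (W : WMod σ L) (A : σ → Prop) (G : MvPolynomial σ ℂ) (D : ℕ) (v : L) : Prop where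
  deg : DegEx A G D
  inj : Function.Injective (W.x G)
  free : ∀ h, W.x h v = 0 → h = 0
  frac : ∀ u, ∃ (N : ℕ) (h : MvPolynomial σ ℂ), W.x (G ^ N) u = W.x h v
  dA : ∀ k, A k → ∃ e, DegLe A e (D - 1) ∧ W.x G (W.d (X k) v) = W.x e v
  dN : ∀ k, ¬ A k → ∃ e, DegLe A e D ∧ W.x G (W.d (X k) v) = W.x e v

variable {W : WMod σ L} {A : σ → Prop} {G : MvPolynomial σ ℂ} {D : ℕ} {v : L}

theorem WMod.xpow_inj (W : WMod σ L) {f : MvPolynomial σ ℂ} (hf : Function.Injective (W.x f)) (k : ℕ) :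
    Function.Injective (W.x (f ^ k)) := by
  induction k with
  | zero => rw [pow_zero, map_one]; exact fun _ _ h => h
  | succ k ih =>
    rw [pow_succ, map_mul]
    exact ih.comp hf

/-- The derivative of a fraction. -/
theorem d_frac (W : WMod σ L) {G : MvPolynomial σ ℂ} {v : L} {k : σ} {e : MvPolynomial σ ℂ}
    (he : W.x G (W.d (X k) v) = W.x e v) {N : ℕ} {h : MvPolynomial σ ℂ} {u : L} (hu : W.x (G ^ N) u = W.x h v) :
    W.x (G ^ (N + 1)) (W.d (X k) u) = W.x (G * pderiv k h + h * e - C (N : ℂ) * pderiv k G * h) v := by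
  have h1 := congrArg (W.d (X k)) hu
  rw [W.d_x_app, W.d_x_app] at h1
  have h2 := congrArg (W.x G) h1
  rw [map_add, map_add, W.x_x_app, W.x_x_app, W.x_x_app G h, mul_comm G h, ← W.x_x_app h G, he, W.x_x_app,
    W.x_x_app] at h2
  have h3 : W.x (G * pderiv k (G ^ N)) u = W.x (C (N : ℂ) * pderiv k G * h) v := by
    rw [pderiv_pow]
    have e1 : G * ((N : MvPolynomial σ ℂ) * G ^ (N - 1) * pderiv k G) = (C (N : ℂ) * pderiv k G) * G ^ N := by
      cases N with
      | zero => simp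
      | succ N =>
        rw [Nat.add_sub_cancel, pow_succ]
        push_cast
        rw [map_add, map_natCast, map_one]
        ring
    rw [e1, ← W.x_x_app, hu, W.x_x_app]
  rw [h3] at h2
  have e2 : G ^ (N + 1) = G * G ^ N := by rw [pow_succ, mul_comm]
  rw [e2, map_sub, LinearMap.sub_apply, map_add, LinearMap.add_apply, eq_sub_iff_add_eq, h2, add_comm]

/-- The filtration. -/
def PhiV (W : WMod σ L) (A : σ → Prop) (G : MvPolynomial σ ℂ) (D : ℕ) (hG : DegEx A G D) (v : L) (r : ℤ) :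
    Submodule ℂ L where
  carrier := {u | ∃ (N : ℕ) (h : MvPolynomial σ ℂ), W.x (G ^ N) u = W.x h v ∧ DegLe A h (r + N * D)}
  zero_mem' := ⟨0, 0, by simp, DegLe.zero _⟩
  add_mem' := by
    rintro u w ⟨N, h, h1, h2⟩ ⟨M, g, g1, g2⟩
    refine ⟨N + M, G ^ M * h + G ^ N * g, ?_, ?_⟩
    · rw [map_add, map_add, LinearMap.add_apply, ← W.x_x_app, ← W.x_x_app, ← h1, ← g1, W.x_x_app, W.x_x_app,
        ← pow_add, ← pow_add, add_comm M N]
    · refine DegLe.add (DegLe.mono (DegLe.mul (hG.pow M).le h2) ?_) (DegLe.mono (DegLe.mul (hG.pow N).le g2) ?_)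
      · push_cast
        linarith
      · push_cast
        linarith
  smul_mem' := by
    rintro c u ⟨N, h, h1, h2⟩
    refine ⟨N, C c * h, ?_, ?_⟩
    · rw [map_smul, h1, ← smul_eq_C_mul, map_smul, LinearMap.smul_apply]
    · have := DegLe.mul (DegLe.C (A := A) c) h2
      rwa [zero_add] at this

theorem VGen.yfilt (hv : W.VGen A G D v) : W.YFilt A (PhiV W A G D hv.deg v) where
  mono := by
    rintro r s hrs u ⟨N, h, h1, h2⟩
    exact ⟨N, h, h1, h2.mono (by linarith)⟩
  xN := by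
    rintro k hk r u ⟨N, h, h1, h2⟩
    refine ⟨N, X k * h, ?_, ?_⟩
    · rw [W.x_x_app, mul_comm, ← W.x_x_app, h1, W.x_x_app]
    · have := DegLe.mul (DegLe.X_N hk) h2
      rwa [zero_add] at this
  xA := by
    rintro k hk r u ⟨N, h, h1, h2⟩
    refine ⟨N, X k * h, ?_, ?_⟩
    · rw [W.x_x_app, mul_comm, ← W.x_x_app, h1, W.x_x_app]
    · have := DegLe.mul (DegLe.X_A hk) h2
      exact this.mono (by linarith)
  dN := by
    rintro k hk r u ⟨N, h, h1, h2⟩
    obtain ⟨e, e1, e2⟩ := hv.dN k hk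
    refine ⟨N + 1, _, d_frac W e2 h1, ?_⟩
    have hG := hv.deg.le
    rw [sub_eq_add_neg]
    refine DegLe.add (DegLe.add ?_ ?_) ?_
    · refine (DegLe.mul hG (h2.pd_N hk)).mono ?_
      push_cast
      linarith
    · refine (DegLe.mul h2 e1).mono ?_
      push_cast
      linarith
    · have h5 : -(C (N : ℂ) * pderiv k G * h) = C (-(N : ℂ)) * (pderiv k G * h) := by
        rw [C_neg]
        ring
      rw [h5]
      refine (DegLe.mul (DegLe.C _) (DegLe.mul (hG.pd_N hk) h2)).mono ?_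
      push_cast
      linarith
  dA := by
    rintro k hk r u ⟨N, h, h1, h2⟩
    obtain ⟨e, e1, e2⟩ := hv.dA k hk
    refine ⟨N + 1, _, d_frac W e2 h1, ?_⟩
    have hG := hv.deg.le
    rw [sub_eq_add_neg]
    refine DegLe.add (DegLe.add ?_ ?_) ?_
    · refine (DegLe.mul hG (h2.pd_A hk)).mono ?_
      push_cast
      linarith
    · refine (DegLe.mul h2 e1).mono ?_
      push_cast
      linarith
    · have h5 : -(C (N : ℂ) * pderiv k G * h) = C (-(N : ℂ)) * (pderiv k G * h) := by
        rw [C_neg]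
        ring
      rw [h5]
      refine (DegLe.mul (DegLe.C _) (DegLe.mul (hG.pd_A hk) h2)).mono ?_
      push_cast
      linarith
  lead := by
    intro u hu
    obtain ⟨N, h, h1⟩ := hv.frac u
    have hh : h ≠ 0 := by
      intro h0
      apply hu
      apply W.xpow_inj hv.inj N
      rw [h1, h0]
      simp
    obtain ⟨j, hj⟩ := exists_degEx (A := A) hh
    refine ⟨(j : ℤ) - N * D, ⟨N, h, h1, hj.le.mono (by linarith)⟩, ?_⟩
    rintro m p hp hpm ⟨M, g, g1, g2⟩
    have e1 : W.x (G ^ M * p * h) v = W.x (G ^ N * g) v := by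
      rw [← W.x_x_app, ← h1, ← W.x_x_app (G ^ N) g, ← g1, W.x_x_app, W.x_x_app, W.x_x_app]
      congr 2
      ring
    have e2 : G ^ M * p * h = G ^ N * g := by
      rw [← sub_eq_zero]
      apply hv.free
      rw [map_sub, LinearMap.sub_apply, e1, sub_self]
    have e3 : DegEx A (G ^ M * p * h) (M * D + m + j) := ((hv.deg.pow M).mul hpm).mul hj
    have e4 : DegLe A (G ^ N * g) ((N * D : ℕ) + ((j : ℤ) - N * D + m - 1 + M * D)) :=
      DegLe.mul (hv.deg.pow N).le g2
    have e5 := e4 (M * D + m + j) (by push_cast; linarith)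
    rw [← e2] at e5
    exact e3.2 e5

/-- **(b)** for modules with `VGen`. -/
theorem VGen.inCh (hv : W.VGen A G D v) {V : WMod σ L} (hV : IsFour A W V) (u : L) (hu : u ≠ 0) (x ξ : σ → ℂ)
    (hx : ∀ k, A k → x k = 0) (hξ : ∀ k, ¬ A k → ξ k = 0) : V.InChAt u x ξ :=
  YF_inCh (VGen.yfilt hv) hV u hu x ξ hx hξ

end Pool.DM
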