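import Pool.Agent.Work.MP_c20ce7_bA.VecS
import Pool.Agent.Work.MP_c20ce7_bA.YM

set_option autoImplicit false
set_option linter.unusedSectionVars false

/-!
# BASE, (c): no block of derivatives is locally nilpotent (helper69)
-/

open MvPolynomial

noncomputable section

namespace Pool.DM

variable {σ : Type} [Fintype σ] [DecidableEq σ] {L : Type} [AddCommGroup L] [Module ℂ L]

section LND

variable (D : Derivation ℂ (MvPolynomial σ ℂ) (MvPolynomial σ ℂ))

theorem D_iter_mul {f : MvPolynomial σ ℂ} (hf : D (D f) = 0) (n : ℕ) (h : MvPolynomial σ ℂ) :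
    D^[n + 1] (f * h) = f * D^[n + 1] h + ((n : ℂ) + 1) • (D f * D^[n] h) := by
  induction n generalizing h with
  | zero =>
    simp only [zero_add, Function.iterate_one, Function.iterate_zero, id, Derivation.leibniz, smul_eq_mul,
      Nat.cast_zero, one_smul]
    ring
  | succ n ih =>
    rw [Function.iterate_succ_apply', ih, map_add, Derivation.leibniz, Derivation.map_smul, Derivation.leibniz, hf,
      smul_zero, add_zero, smul_eq_mul, smul_eq_mul, smul_eq_mul, Function.iterate_succ_apply' D (n + 1),
      Function.iterate_succ_apply' D n, mul_comm (D (D^[n] h)) (D f)]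
    push_cast
    module

theorem D_nilp (hX : ∀ k, D (D (X k)) = 0) (h : MvPolynomial σ ℂ) : ∃ n, D^[n] h = 0 := by
  have hz : ∀ n, D^[n] (0 : MvPolynomial σ ℂ) = 0 := by
    intro n
    induction n with
    | zero => rfl
    | succ n ih => rw [Function.iterate_succ_apply', ih, map_zero]
  have hadd : ∀ n (p q : MvPolynomial σ ℂ), D^[n] (p + q) = D^[n] p + D^[n] q := by
    intro n
    induction n with
    | zero => intro p q; rfl
    | succ n ih => intro p q; rw [Function.iterate_succ_apply', ih, map_add, Function.iterate_succ_apply',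
        Function.iterate_succ_apply']
  induction h using MvPolynomial.induction_on with
  | C a =>
    refine ⟨1, ?_⟩
    rw [Function.iterate_one, ← MvPolynomial.algebraMap_eq, Derivation.map_algebraMap]
  | add p q hp hq =>
    obtain ⟨n, hn⟩ := hp
    obtain ⟨m, hm⟩ := hq
    refine ⟨n + m, ?_⟩
    have h1 : D^[n + m] q = 0 := by rw [Function.iterate_add_apply, hm, hz]
    have h2 : D^[n + m] p = 0 := by rw [add_comm, Function.iterate_add_apply, hn, hz]
    rw [hadd, h1, h2, add_zero]
  | mul_X p k hp =>
    obtain ⟨n, hn⟩ := hp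
    refine ⟨n + 1, ?_⟩
    rw [mul_comm, D_iter_mul D (hX k), Function.iterate_succ_apply', hn, map_zero, mul_zero, mul_zero, smul_zero,
      add_zero]

/-- `f D h = c h D f`, `D² f = 0`, `D f ≠ 0`, `c` not a natural number: `h = 0`. -/
theorem lnd_zero (hX : ∀ k, D (D (X k)) = 0) {f h : MvPolynomial σ ℂ} (hf : D (D f) = 0) (hf0 : D f ≠ 0)
    {c : ℂ} (hc : ∀ n : ℕ, (n : ℂ) ≠ c) (hh : f * D h = c • (h * D f)) : h = 0 := by
  classical
  by_contra h0
  have hex := D_nilp D hX h
  obtain ⟨n, hn, hn'⟩ : ∃ n, D^[n] h ≠ 0 ∧ D^[n + 1] h = 0 := by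
    have h1 := Nat.find_spec hex
    have h2 : Nat.find hex ≠ 0 := by
      intro h3
      rw [h3] at h1
      exact h0 h1
    obtain ⟨m, hm⟩ := Nat.exists_eq_succ_of_ne_zero h2
    refine ⟨m, Nat.find_min hex (by omega), ?_⟩
    rw [hm] at h1
    exact h1
  have hsm : ∀ (m : ℕ) (a : ℂ) (p : MvPolynomial σ ℂ), D^[m] (a • p) = a • D^[m] p := by
    intro m
    induction m with
    | zero => intro a p; rfl
    | succ m ih => intro a p; rw [Function.iterate_succ_apply', ih, Derivation.map_smul, Function.iterate_succ_apply']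
  have hR : D^[n] (c • (h * D f)) = c • (D^[n] h * D f) := by
    rw [hsm]
    congr 1
    clear hn hn' hh
    induction n with
    | zero => rfl
    | succ m ih =>
      rw [Function.iterate_succ_apply', ih, Derivation.leibniz, hf, smul_zero, zero_add, smul_eq_mul,
        Function.iterate_succ_apply', mul_comm]
  have hL : D^[n] (f * D h) = (n : ℂ) • (D^[n] h * D f) := by
    cases n with
    | zero =>
      rw [Function.iterate_zero, id, Nat.cast_zero, zero_smul]
      rw [zero_add, Function.iterate_one] at hn'
      rw [hn', mul_zero]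
    | succ m =>
      rw [D_iter_mul D hf, ← Function.iterate_succ_apply, ← Function.iterate_succ_apply, hn', mul_zero, zero_add,
        mul_comm (D f)]
      push_cast
      rfl
  have h1 : ((n : ℂ) - c) • (D^[n] h * D f) = 0 := by
    rw [sub_smul, ← hL, ← hR, hh, sub_self]
  rcases smul_eq_zero.1 h1 with h2 | h2
  · exact hc n (sub_eq_zero.1 h2)
  · exact (mul_ne_zero hn hf0) h2

end LND

end Pool.DM
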