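import Pool.Agent.Work.MP_c20ce7_bA.Mod2

set_option autoImplicit false
set_option linter.unusedSectionVars false

/-!
# BASE, the source module (helper69): `SemiV Wc V0`
-/

open MvPolynomial

noncomputable section

namespace Pool.DM

attribute [local instance] instAddCommGroupM instModuleMvPolynomialComplexM instModuleComplexLoc

/-- The derivatives of `V0` in the base variables. -/
theorem V0_d {k : Tau} (hk : ¬ SlT k) : WB.x FT (Wc.d (X k) V0) = - WB.x (pderiv k FT) V0 := by
  have h0 : WB.d (X k) v0 = 0 := by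
    apply DelT_bij.1
    change WB.x DelT _ = WB.x DelT _
    rw [WB_d_v0, DelT_N hk, map_zero, LinearMap.zero_apply, smul_zero, map_zero]
  have h1 := WB.d_x_app k FT V0
  rw [FT_V0, h0] at h1
  rw [Wc_four.dN k hk]
  exact eq_neg_of_add_eq_zero_left h1.symm

theorem V0_d_zero {N : Bk} (hN : ¬ SlT (N, 0, 0)) (h1 : N ≠ .a) (h2 : N ≠ .q) (h3 : N ≠ .u) (h4 : N ≠ .l)
    (s t : Fin 2) : Wc.d (X (N, s, t)) V0 = 0 := by
  apply FT_inj
  rw [V0_d (k := (N, s, t)) (fun h => hN h), map_zero]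
  have e : pderiv (N, s, t) FT = 0 := by
    simp only [FT, Derivation.leibniz, Derivation.leibniz_pow, pd_det_ne h1, pd_det_ne h2, pd_det_ne h3,
      pd_det_ne h4, smul_zero, add_zero]
  rw [e, map_zero, LinearMap.zero_apply, neg_zero]

/-- The row operators on the determinants. -/
theorem row_det (N : Bk) (i j : Fin 2) :
    ∑ t, X (N, i, t) * pderiv (N, j, t) (mm N).det = if i = j then (mm N).det else 0 := by
  have key : ∀ a b c d : Fin 2, pderiv (N, a, b) (X (N, c, d) : Ach) = if a = c ∧ b = d then 1 else 0 := by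
    intro a b c d
    by_cases h : a = c ∧ b = d
    · rw [h.1, h.2, pderiv_X_self, if_pos ⟨rfl, rfl⟩]
    · rw [pderiv_X_of_ne, if_neg h]
      intro h'
      simp only [Prod.mk.injEq, true_and] at h'
      exact h ⟨h'.1.symm, h'.2.symm⟩
  simp only [Matrix.det_fin_two, mm, map_sub, Derivation.leibniz, key, Fin.sum_univ_two, smul_eq_mul]
  fin_cases i <;> fin_cases j <;> simp <;> ring

/-- The column operators on the determinants. -/
theorem col_det (N : Bk) (i j : Fin 2) :
    ∑ s, X (N, s, i) * pderiv (N, s, j) (mm N).det = if i = j then (mm N).det else 0 := by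
  have key : ∀ a b c d : Fin 2, pderiv (N, a, b) (X (N, c, d) : Ach) = if a = c ∧ b = d then 1 else 0 := by
    intro a b c d
    by_cases h : a = c ∧ b = d
    · rw [h.1, h.2, pderiv_X_self, if_pos ⟨rfl, rfl⟩]
    · rw [pderiv_X_of_ne, if_neg h]
      intro h'
      simp only [Prod.mk.injEq, true_and] at h'
      exact h ⟨h'.1.symm, h'.2.symm⟩
  simp only [Matrix.det_fin_two, mm, map_sub, Derivation.leibniz, key, Fin.sum_univ_two, smul_eq_mul]
  fin_cases i <;> fin_cases j <;> simp <;> ring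

/-- The row operator as a derivation. -/
def rD (N : Bk) (i j : Fin 2) : Derivation ℂ Ach Ach :=
  (X (N, i, 0) : Ach) • pderiv (N, j, 0) + (X (N, i, 1) : Ach) • pderiv (N, j, 1)

/-- The column operator as a derivation. -/
def cD (N : Bk) (i j : Fin 2) : Derivation ℂ Ach Ach :=
  (X (N, 0, i) : Ach) • pderiv (N, 0, j) + (X (N, 1, i) : Ach) • pderiv (N, 1, j)

theorem rD_ap (N : Bk) (i j : Fin 2) (f : Ach) :
    rD N i j f = X (N, i, 0) * pderiv (N, j, 0) f + X (N, i, 1) * pderiv (N, j, 1) f := rfl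

theorem cD_ap (N : Bk) (i j : Fin 2) (f : Ach) :
    cD N i j f = X (N, 0, i) * pderiv (N, 0, j) f + X (N, 1, i) * pderiv (N, 1, j) f := rfl

theorem rD_ne {N M : Bk} (h : N ≠ M) (i j : Fin 2) : rD N i j (mm M).det = 0 := by
  rw [rD_ap, pd_det_ne h, pd_det_ne h, mul_zero, mul_zero, add_zero]

theorem cD_ne {N M : Bk} (h : N ≠ M) (i j : Fin 2) : cD N i j (mm M).det = 0 := by
  rw [cD_ap, pd_det_ne h, pd_det_ne h, mul_zero, mul_zero, add_zero]

theorem rD_self (N : Bk) (i j : Fin 2) : rD N i j (mm N).det = if i = j then (mm N).det else 0 := by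
  have h := row_det N i j
  rw [Fin.sum_univ_two] at h
  rw [rD_ap, h]

theorem cD_self (N : Bk) (i j : Fin 2) : cD N i j (mm N).det = if i = j then (mm N).det else 0 := by
  have h := col_det N i j
  rw [Fin.sum_univ_two] at h
  rw [cD_ap, h]

/-- A derivation on the product of the powers of the determinants. -/
theorem D_FT (D : Derivation ℂ Ach Ach) (c : Bk → ℂ) (hD : ∀ N, D (mm N).det = c N • (mm N).det) :
    D FT = (2 * c .a + c .q + 4 * c .u + 2 * c .l) • FT := by
  simp only [FT, Derivation.leibniz, Derivation.leibniz_pow, hD, smul_eq_mul, nsmul_eq_mul]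
  simp only [smul_eq_C_mul, map_add, C_mul, map_mul]
  rw [show (C (2 : ℂ) : Ach) = 2 from map_ofNat C 2, show (C (4 : ℂ) : Ach) = 4 from map_ofNat C 4]
  push_cast
  ring

theorem V0_xd {k l : Tau} (hk : ¬ SlT k) (hl : ¬ SlT l) :
    WB.x FT (Wc.x (X l) (Wc.d (X k) V0)) = - WB.x (X l * pderiv k FT) V0 := by
  rw [Wc_four.xN l hl, ComF.xW (X l), V0_d hk, map_neg, WB.x_x_app]

theorem V0_Rg {N : Bk} (hN : ¬ SlT (N, 0, 0)) (i j : Fin 2) :
    WB.x FT (Wc.Rg N i j V0) = - WB.x (rD N i j FT) V0 := by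
  have h1 : ∀ s t, ¬ SlT (N, s, t) := fun s t h => hN h
  rw [WMod.Rg, Fin.sum_univ_two, LinearMap.add_apply, Module.End.mul_apply, Module.End.mul_apply, map_add,
    V0_xd (h1 _ _) (h1 _ _), V0_xd (h1 _ _) (h1 _ _), rD_ap, map_add, LinearMap.add_apply, neg_add]

theorem V0_Cg {N : Bk} (hN : ¬ SlT (N, 0, 0)) (i j : Fin 2) :
    WB.x FT (Wc.Cg N i j V0) = - WB.x (cD N i j FT) V0 := by
  have h1 : ∀ s t, ¬ SlT (N, s, t) := fun s t h => hN h
  rw [WMod.Cg, Fin.sum_univ_two, LinearMap.add_apply, Module.End.mul_apply, Module.End.mul_apply, map_add,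
    V0_xd (h1 _ _) (h1 _ _), V0_xd (h1 _ _) (h1 _ _), cD_ap, map_add, LinearMap.add_apply, neg_add]

/-- The exponents. -/
def exF : Bk → ℂ
  | .a => 2
  | .q => 1
  | .u => 4
  | .l => 2
  | _ => 0

theorem V0_R {N : Bk} (hN : N = .a ∨ N = .q ∨ N = .u ∨ N = .l) (i j : Fin 2) :
    Wc.Rg N i j V0 = if i = j then (- exF N) • V0 else 0 := by
  have hS : ¬ SlT (N, 0, 0) := by
    rcases hN with rfl | rfl | rfl | rfl <;> decide
  apply FT_inj
  rw [V0_Rg hS]
  have hD : ∀ M, rD N i j (mm M).det = (if N = M ∧ i = j then (1 : ℂ) else 0) • (mm M).det := by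
    intro M
    by_cases h : N = M
    · subst h
      rw [rD_self]
      by_cases hij : i = j
      · simp [hij]
      · simp [hij]
    · rw [rD_ne h, if_neg (fun h' => h h'.1), zero_smul]
  rw [D_FT (rD N i j) _ hD, map_smul, LinearMap.smul_apply, ← neg_smul]
  by_cases hij : i = j
  · rw [if_pos hij, map_smul]
    congr 1
    rcases hN with rfl | rfl | rfl | rfl <;> simp [hij, exF]
  · rw [if_neg hij, map_zero]
    simp [hij]

theorem V0_C {N : Bk} (hN : N = .a ∨ N = .q ∨ N = .u ∨ N = .l) (i j : Fin 2) :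
    Wc.Cg N i j V0 = if i = j then (- exF N) • V0 else 0 := by
  have hS : ¬ SlT (N, 0, 0) := by
    rcases hN with rfl | rfl | rfl | rfl <;> decide
  apply FT_inj
  rw [V0_Cg hS]
  have hD : ∀ M, cD N i j (mm M).det = (if N = M ∧ i = j then (1 : ℂ) else 0) • (mm M).det := by
    intro M
    by_cases h : N = M
    · subst h
      rw [cD_self]
      by_cases hij : i = j
      · simp [hij]
      · simp [hij]
    · rw [cD_ne h, if_neg (fun h' => h h'.1), zero_smul]
  rw [D_FT (cD N i j) _ hD, map_smul, LinearMap.smul_apply, ← neg_smul]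
  by_cases hij : i = j
  · rw [if_pos hij, map_smul]
    congr 1
    rcases hN with rfl | rfl | rfl | rfl <;> simp [hij, exF]
  · rw [if_neg hij, map_zero]
    simp [hij]

/-- Transfer with an `if`. -/
theorem ComF.ite {P : Module.End ℂ BMod} (hP : ComF P) {i j : Fin 2}
    (h : P v0 = if i = j then (-3 : ℂ) • v0 else 0) : P V0 = if i = j then (-3 : ℂ) • V0 else 0 := by
  by_cases hij : i = j
  · rw [if_pos hij] at h ⊢
    exact ComF.rel hP (ComF.one.smul (-3)) h
  · rw [if_neg hij] at h ⊢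
    exact ComF.rel hP ComF.zero h

theorem V0_x {f : Ach} (h : Wc.x f v0 = 0) : Wc.x f V0 = 0 := ComF.rel (ComF.x f) ComF.zero h

theorem V0_mpr (b i : Fin 2) : Wc.x (X (.p, b, 0) * X (.r, i, 1) - X (.p, b, 1) * X (.r, i, 0)) V0 = 0 :=
  V0_x (v0_mpr b i)

theorem V0_mkz (a j : Fin 2) : Wc.x (X (.ka, 0, a) * X (.ze, 1, j) - X (.ka, 1, a) * X (.ze, 0, j)) V0 = 0 :=
  V0_x (v0_mkz a j)

theorem V0_zr (i j : Fin 2) : Wc.x ((mm .ze * mm .r) i j) V0 = 0 := V0_x (v0_zr i j)

theorem V0_kp (i j : Fin 2) : Wc.x ((mm .ka * mm .p) i j) V0 = 0 := V0_x (v0_kp i j)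

theorem V0_det {N : Bk} (hN : SlT (N, 0, 0)) : Wc.x (mm N).det V0 = 0 := by
  apply V0_x
  have h0 := v0_det 0
  have h1 := v0_det 1
  have h2 := v0_det 2
  have h3 := v0_det 3
  simp only [kaT0, kaT1, kaT2, kaT3, f2_0, f2_1] at h0 h1 h2 h3
  rw [Matrix.det_fin_two, mm_ap, mm_ap, mm_ap, mm_ap]
  rcases hN with h | h | h | h <;> (change N = _ at h; subst h)
  · rw [mul_comm (X (Bk.p, 0, 1) : Ach)]
    exact h0
  · rw [mul_comm (X (Bk.r, 0, 1) : Ach), mul_comm (X (Bk.r, 0, 0) : Ach)]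
    exact h3
  · rw [mul_comm (X (Bk.ze, 0, 1) : Ach), mul_comm (X (Bk.ze, 0, 0) : Ach)]
    exact h2
  · rw [mul_comm (X (Bk.ka, 0, 1) : Ach)]
    exact h1

/-- **The relations of `V0`.** -/
theorem Wc_semiV : SemiV Wc V0 where
  cB := V0_d_zero (by decide) (by decide) (by decide) (by decide) (by decide)
  cS := V0_d_zero (by decide) (by decide) (by decide) (by decide) (by decide)
  cV := V0_d_zero (by decide) (by decide) (by decide) (by decide) (by decide)
  cW := V0_d_zero (by decide) (by decide) (by decide) (by decide) (by decide)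
  aR := V0_R (Or.inl rfl)
  aC := V0_C (Or.inl rfl)
  qR := V0_R (Or.inr (Or.inl rfl))
  qC := V0_C (Or.inr (Or.inl rfl))
  uR := V0_R (Or.inr (Or.inr (Or.inl rfl)))
  uC := V0_C (Or.inr (Or.inr (Or.inl rfl)))
  lR := V0_R (Or.inr (Or.inr (Or.inr rfl)))
  lC := V0_C (Or.inr (Or.inr (Or.inr rfl)))
  gE i j := ((ComF.Cg (by decide) i j).add (ComF.Cg (by decide) i j)).ite (v0_E i j)
  gG i j := ((ComF.Rg (by decide) i j).add (ComF.Rg (by decide) i j)).ite (v0_G i j)
  gF1 i j := ComF.rel (ComF.Rg (by decide) j i) (ComF.Cg (by decide) i j) (v0_F1 i j)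
  gF2 i j := ComF.rel (ComF.Rg (by decide) j i) (ComF.Cg (by decide) i j) (v0_F2 i j)
  er := ComF.rel ((ComF.Cg (by decide) 0 0).add (ComF.Cg (by decide) 1 1)) (ComF.one.smul (-3)) v0_er
  eze := ComF.rel ((ComF.Rg (by decide) 0 0).add (ComF.Rg (by decide) 1 1)) (ComF.one.smul (-3)) v0_eze
  eka := ComF.rel ((ComF.Rg (by decide) 0 0).add (ComF.Rg (by decide) 1 1)) (ComF.one.smul (-3)) v0_eka
  zr := V0_zr
  mpr i j a b := by
    have h := V0_mpr b i
    fin_cases j <;> fin_cases a <;> simp only [Fin.zero_eta, Fin.mk_one]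
    · rw [sub_self, map_zero, LinearMap.zero_apply]
    · exact h
    · rw [← neg_sub, map_neg, LinearMap.neg_apply, h, neg_zero]
    · rw [sub_self, map_zero, LinearMap.zero_apply]
  mkz i j a b := by
    have h := V0_mkz a j
    fin_cases i <;> fin_cases b <;> simp only [Fin.zero_eta, Fin.mk_one]
    · rw [sub_self, map_zero, LinearMap.zero_apply]
    · exact h
    · rw [← neg_sub, map_neg, LinearMap.neg_apply, h, neg_zero]
    · rw [sub_self, map_zero, LinearMap.zero_apply]

/-- **(b)** for the characteristic variety of the module. -/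
theorem Wc_inCh' (x ξ : Tau → ℂ) (hx : ∀ k, SlT k → x k = 0) (hξ : ∀ k, ¬ SlT k → ξ k = 0) : Wc.InCh x ξ :=
  fun u hu => Wc_inCh u hu x ξ hx hξ

end Pool.DM
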