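import Pool.Agent.Work.MP_c20ce7_bA.Mod1
import Pool.Agent.Work.MP_c20ce7_dm82.FrB

set_option autoImplicit false
set_option linter.unusedSectionVars false

/-!
# BASE, the source module (helper69): the relations of `V0`
-/

open MvPolynomial

noncomputable section

namespace Pool.DM

attribute [local instance] instAddCommGroupM instModuleMvPolynomialComplexM instModuleComplexLoc

theorem psS_pair (q r : Q4) (v : BMod) :
    WB.x (psS kaT epT (X q)) (WB.d (psS kaT epT (X r)) v) =
      (epT q * epT r) • (WB.x (X (kaT q)) (WB.d (X (kaT r)) v)) := by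
  rw [psS_X, psS_X, ← smul_eq_C_mul, ← smul_eq_C_mul, map_smul, map_smul, LinearMap.smul_apply,
    LinearMap.smul_apply, map_smul, smul_smul]

theorem Wc_xd (k l : Tau) (v : BMod) :
    Wc.d (X k) (Wc.x (X l) v) = Wc.x (X l) (Wc.d (X k) v) + if k = l then v else 0 := by
  have h := LinearMap.congr_fun (Wc.comm k l) v
  rw [LinearMap.sub_apply, Module.End.mul_apply, Module.End.mul_apply, sub_eq_iff_eq_add, add_comm] at h
  rw [h]
  congr 1
  split_ifs <;> rfl

theorem WB_pair (q r : Q4) (v : BMod) :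
    WB.x (X (kaT q)) (WB.d (X (kaT r)) v) =
      - (Wc.x (X (kaT r)) (Wc.d (X (kaT q)) v) + if q = r then v else 0) := by
  have e1 : Wc.d (X (kaT q)) = - WB.x (X (kaT q)) := Wc_four.dA _ (kaT_sl q)
  have e2 : Wc.x (X (kaT r)) = WB.d (X (kaT r)) := Wc_four.xA _ (kaT_sl r)
  have h := Wc_xd (kaT q) (kaT r) v
  simp only [kaT_inj.eq_iff] at h
  rw [← h, e1, e2, LinearMap.neg_apply, neg_neg]

/-- The invariance at the vertex between `B_i` and `B_(i+1)`. -/
theorem v0_inv (i : Fin 4) (a b : Fin 2) :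
    ∑ c, (epT (i + 1, b, c) * epT (i + 1, a, c)) •
        Wc.x (X (kaT (i + 1, a, c))) (Wc.d (X (kaT (i + 1, b, c))) v0) =
      ∑ c, (epT (i, c, a) * epT (i, c, b)) • Wc.x (X (kaT (i, c, b))) (Wc.d (X (kaT (i, c, a))) v0) := by
  have h := WB_vs.invar i a b
  simp only [psS_pair, WB_pair, Fin.sum_univ_two, Prod.mk.injEq, true_and, and_true] at h ⊢
  by_cases hab : a = b
  · subst hab
    simp only [epT_sq, one_smul, if_true] at h ⊢
    linear_combination (norm := module) -(1 : ℂ) • h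
  · have hba : ¬ b = a := fun h' => hab h'.symm
    simp only [hab, hba, if_false, add_zero] at h
    linear_combination (norm := module) -(1 : ℂ) • h

/-- The Euler operators. -/
theorem v0_eul (i : Fin 4) :
    ∑ a, ∑ b, Wc.x (X (kaT (i, a, b))) (Wc.d (X (kaT (i, a, b))) v0) = (-3 : ℂ) • v0 := by
  have h := WB_vs.eul i
  simp only [psS_pair, WB_pair, Fin.sum_univ_two, epT_sq, one_smul, if_true] at h ⊢
  linear_combination (norm := module) -(1 : ℂ) • h

/-- The products. -/
theorem v0_prod (i : Fin 4) (a c : Fin 2) :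
    Wc.x (∑ b, C (epT (i, a, b) * epT (i + 1, b, c)) * (X (kaT (i, a, b)) * X (kaT (i + 1, b, c)))) v0 = 0 := by
  have h := WB_vs.prod i a c
  simp only [map_add, map_mul, psS_X, Fin.sum_univ_two] at h ⊢
  have hx : ∀ q, Wc.x (X (kaT q)) = WB.d (X (kaT q)) := fun q => Wc_four.xA _ (kaT_sl q)
  have hC : ∀ a : ℂ, Wc.x (C a) = WB.d (C a) := fun a => by rw [WMod.x_C, WMod.d_C]
  simp only [hx, hC]
  rw [← h]
  have hc : ∀ f g : Ach, WB.d f * WB.d g = WB.d g * WB.d f := fun f g => by rw [← map_mul, mul_comm, map_mul]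
  congr 2
  · rw [mul_assoc, mul_assoc, ← mul_assoc (WB.d (C (epT (i + 1, 0, c)))), hc (C (epT (i + 1, 0, c))) (X _), mul_assoc]
  · rw [mul_assoc, mul_assoc, ← mul_assoc (WB.d (C (epT (i + 1, 1, c)))), hc (C (epT (i + 1, 1, c))) (X _), mul_assoc]

/-- The determinants. -/
theorem v0_det (i : Fin 4) :
    Wc.x (X (kaT (i, 0, 0)) * X (kaT (i, 1, 1)) - X (kaT (i, 0, 1)) * X (kaT (i, 1, 0))) v0 = 0 := by
  have h := WB_vs.det i
  have e : psS kaT epT (X (i, 0, 0) * X (i, 1, 1) - X (i, 0, 1) * X (i, 1, 0)) =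
      X (kaT (i, 0, 0)) * X (kaT (i, 1, 1)) - X (kaT (i, 0, 1)) * X (kaT (i, 1, 0)) := by
    have e1 : (C (epT (i, 0, 0)) * C (epT (i, 1, 1)) : Ach) = 1 := by
      rw [← C_mul]
      simp [epT]
    have e2 : (C (epT (i, 0, 1)) * C (epT (i, 1, 0)) : Ach) = 1 := by
      rw [← C_mul, ← C_1]
      congr 1
      unfold epT
      split_ifs with h1 h2 <;> norm_num <;> simp_all
    rw [map_sub, map_mul, map_mul, psS_X, psS_X, psS_X, psS_X]
    linear_combination X (kaT (i, 0, 0)) * X (kaT (i, 1, 1)) * e1 - X (kaT (i, 0, 1)) * X (kaT (i, 1, 0)) * e2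
  rw [e] at h
  have hx : ∀ q, Wc.x (X (kaT q)) = WB.d (X (kaT q)) := fun q => Wc_four.xA _ (kaT_sl q)
  simp only [map_sub, map_mul, hx] at h ⊢
  exact h

/-! ## From `v0` to `V0` -/

/-- `det(a)^2 det(q) det(u)^4 det(l)^2`. -/
def FT : Ach := (mm .a).det ^ 2 * (mm .q).det * (mm .u).det ^ 4 * (mm .l).det ^ 2

theorem FT_V0 : WB.x FT V0 = v0 := by
  rw [V0, WB_x, v0]
  have e : FT * ((mm .a).det ^ 2 * (mm .q).det ^ 3 * (mm .l).det ^ 2 * DelT ^ 4) = GT ^ 4 * 1 := by
    rw [FT, GT, q0]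
    ring
  rw [e]
  have := pmk_cancel_pow 4 1 0
  rwa [zero_add] at this

theorem FT_inj : Function.Injective (WB.x FT) := by
  have h1 : FT ∣ q0 ^ 4 := by
    refine ⟨(mm .a).det ^ 2 * (mm .q).det ^ 3 * (mm .l).det ^ 2, ?_⟩
    rw [FT, q0]
    ring
  have h2 : Function.Bijective (WB.x (q0 ^ 4)) := by
    rw [map_pow]
    have h3 : ∀ n : ℕ, Function.Bijective (WB.x q0 ^ n) := by
      intro n
      induction n with
      | zero => exact Function.bijective_id
      | succ n ih =>
        rw [pow_succ]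
        exact ih.comp WB_q0_bij
    exact h3 4
  exact (bij_of_dvd h1 h2).1

theorem pd_det_ne {N M : Bk} (h : N ≠ M) (s t : Fin 2) : pderiv (N, s, t) (mm M).det = 0 := by
  have h1 : ∀ a b, pderiv (N, s, t) (X (M, a, b) : Ach) = 0 := fun a b =>
    pderiv_X_of_ne (fun h' => h (congrArg Prod.fst h').symm)
  simp only [Matrix.det_fin_two, mm, map_sub, Derivation.leibniz, h1, smul_zero, add_zero, sub_zero]

theorem FT_sl {k : Tau} (hk : SlT k) : pderiv k FT = 0 := by
  obtain ⟨N, s, t⟩ := k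
  have h1 : N ≠ .a := by rintro rfl; revert hk; revert s t; decide
  have h2 : N ≠ .q := by rintro rfl; revert hk; revert s t; decide
  have h3 : N ≠ .u := by rintro rfl; revert hk; revert s t; decide
  have h4 : N ≠ .l := by rintro rfl; revert hk; revert s t; decide
  simp only [FT, Derivation.leibniz, Derivation.leibniz_pow, pd_det_ne h1, pd_det_ne h2, pd_det_ne h3, pd_det_ne h4,
    smul_zero, add_zero]

/-- The operators which commute with `FT`. -/
def ComF (P : Module.End ℂ BMod) : Prop := ∀ v, WB.x FT (P v) = P (WB.x FT v)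

theorem ComF.add {P Q : Module.End ℂ BMod} (hP : ComF P) (hQ : ComF Q) : ComF (P + Q) := by
  intro v
  rw [LinearMap.add_apply, LinearMap.add_apply, map_add, hP, hQ]

theorem ComF.mul {P Q : Module.End ℂ BMod} (hP : ComF P) (hQ : ComF Q) : ComF (P * Q) := by
  intro v
  rw [Module.End.mul_apply, Module.End.mul_apply, hP, hQ]

theorem ComF.xW (f : Ach) : ComF (WB.x f) := by
  intro v
  rw [WB.x_x_app, WB.x_x_app, mul_comm]

theorem ComF.dW {k : Tau} (hk : SlT k) : ComF (WB.d (X k)) := by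
  intro v
  rw [WB.d_x_app, FT_sl hk, map_zero, LinearMap.zero_apply, add_zero]

theorem ComF.x (f : Ach) : ComF (Wc.x f) := by
  induction f using MvPolynomial.induction_on with
  | C a =>
    intro v
    rw [WMod.x_C, LinearMap.smul_apply, LinearMap.smul_apply, map_smul]
    rfl
  | add p q hp hq =>
    rw [map_add]
    exact hp.add hq
  | mul_X p k hp =>
    rw [map_mul]
    refine hp.mul ?_
    by_cases hk : SlT k
    · rw [Wc_four.xA k hk]
      exact ComF.dW hk
    · rw [Wc_four.xN k hk]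
      exact ComF.xW _

theorem ComF.d {k : Tau} (hk : SlT k) : ComF (Wc.d (X k)) := by
  intro v
  rw [Wc_four.dA k hk, LinearMap.neg_apply, LinearMap.neg_apply, map_neg, ComF.xW]

/-- The transfer of a relation. -/
theorem ComF.rel {P Q : Module.End ℂ BMod} (hP : ComF P) (hQ : ComF Q) (h : P v0 = Q v0) : P V0 = Q V0 := by
  apply FT_inj
  rw [hP, hQ, FT_V0, h]

theorem ComF.one : ComF 1 := fun _ => rfl

theorem ComF.smul {P : Module.End ℂ BMod} (hP : ComF P) (c : ℂ) : ComF (c • P) := by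
  intro v
  rw [LinearMap.smul_apply, LinearMap.smul_apply, map_smul, hP]

theorem ComF.zero : ComF 0 := fun v => by rw [LinearMap.zero_apply, LinearMap.zero_apply, map_zero]

theorem ComF.Rg {N : Bk} (hN : SlT (N, 0, 0)) (i j : Fin 2) : ComF (Wc.Rg N i j) := by
  have h1 : ∀ s t, SlT (N, s, t) := fun _ _ => hN
  rw [WMod.Rg, Fin.sum_univ_two]
  exact ((ComF.x _).mul (ComF.d (h1 _ _))).add ((ComF.x _).mul (ComF.d (h1 _ _)))

theorem ComF.Cg {N : Bk} (hN : SlT (N, 0, 0)) (i j : Fin 2) : ComF (Wc.Cg N i j) := by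
  have h1 : ∀ s t, SlT (N, s, t) := fun _ _ => hN
  rw [WMod.Cg, Fin.sum_univ_two]
  exact ((ComF.x _).mul (ComF.d (h1 _ _))).add ((ComF.x _).mul (ComF.d (h1 _ _)))

theorem ep0 (a b : Fin 2) : epT (0, a, b) = 1 := by simp [epT]

theorem ep1 (a b : Fin 2) : epT (1, a, b) = 1 := by simp [epT]

theorem ep00 (i : Fin 4) : epT (i, 0, 0) = 1 := by simp [epT]

theorem ep11 (i : Fin 4) : epT (i, 1, 1) = 1 := by simp [epT]

theorem ep201 : epT (2, 0, 1) = -1 := by simp [epT]

theorem ep210 : epT (2, 1, 0) = -1 := by simp [epT]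

theorem ep301 : epT (3, 0, 1) = -1 := by simp [epT]

theorem ep310 : epT (3, 1, 0) = -1 := by simp [epT]

theorem f4_01 : (0 : Fin 4) + 1 = 1 := rfl

theorem f4_12 : (1 : Fin 4) + 1 = 2 := rfl

theorem f4_23 : (2 : Fin 4) + 1 = 3 := rfl

theorem f4_30 : (3 : Fin 4) + 1 = 0 := rfl

theorem f2_0 : (1 : Fin 2) - 0 = 1 := rfl

theorem f2_1 : (1 : Fin 2) - 1 = 0 := rfl

theorem v0_F1 (i j : Fin 2) : Wc.Rg .p j i v0 = Wc.Cg .ka i j v0 := by
  have h := v0_inv 0 i j
  simp only [f4_01, kaT0, kaT1, ep0, ep1, Fin.sum_univ_two, mul_one, one_smul] at h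
  simp only [WMod.Rg, WMod.Cg, Fin.sum_univ_two, LinearMap.add_apply, Module.End.mul_apply]
  exact h.symm

theorem v0_F2 (i j : Fin 2) : Wc.Rg .r j i v0 = Wc.Cg .ze i j v0 := by
  have h00 := v0_inv 2 0 0
  have h01 := v0_inv 2 0 1
  have h10 := v0_inv 2 1 0
  have h11 := v0_inv 2 1 1
  simp only [f4_23, kaT2, kaT3, ep00, ep11, ep201, ep210, ep301, ep310, f2_0, f2_1, Fin.sum_univ_two, mul_one,
    one_mul, neg_mul, mul_neg, neg_neg, one_smul, neg_smul] at h00 h01 h10 h11
  simp only [WMod.Rg, WMod.Cg, Fin.sum_univ_two, LinearMap.add_apply, Module.End.mul_apply]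
  fin_cases i <;> fin_cases j <;> simp only [Fin.zero_eta, Fin.mk_one]
  · linear_combination (norm := module) h11
  · linear_combination (norm := module) -(1 : ℂ) • h01
  · linear_combination (norm := module) -(1 : ℂ) • h10
  · linear_combination (norm := module) h00

theorem v0_er : Wc.Cg .r 0 0 v0 + Wc.Cg .r 1 1 v0 = (-3 : ℂ) • v0 := by
  have h := v0_eul 3
  simp only [kaT3, f2_0, f2_1, Fin.sum_univ_two] at h
  simp only [WMod.Cg, Fin.sum_univ_two, LinearMap.add_apply, Module.End.mul_apply]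
  linear_combination (norm := module) h

theorem v0_eze : Wc.Rg .ze 0 0 v0 + Wc.Rg .ze 1 1 v0 = (-3 : ℂ) • v0 := by
  have h := v0_eul 2
  simp only [kaT2, f2_0, f2_1, Fin.sum_univ_two] at h
  simp only [WMod.Rg, Fin.sum_univ_two, LinearMap.add_apply, Module.End.mul_apply]
  linear_combination (norm := module) h

theorem v0_eka : Wc.Rg .ka 0 0 v0 + Wc.Rg .ka 1 1 v0 = (-3 : ℂ) • v0 := by
  have h := v0_eul 1
  simp only [kaT1, Fin.sum_univ_two] at h
  simp only [WMod.Rg, Fin.sum_univ_two, LinearMap.add_apply, Module.End.mul_apply]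
  linear_combination (norm := module) h

theorem v0_G (i j : Fin 2) : Wc.Rg .ka i j v0 + Wc.Rg .ze i j v0 = if i = j then (-3 : ℂ) • v0 else 0 := by
  have h00 := v0_inv 1 0 0
  have h01 := v0_inv 1 0 1
  have h10 := v0_inv 1 1 0
  have h11 := v0_inv 1 1 1
  have he := v0_eze
  simp only [f4_12, kaT1, kaT2, ep1, ep00, ep11, ep201, ep210, f2_0, f2_1, Fin.sum_univ_two, mul_one,
    one_mul, neg_mul, mul_neg, neg_neg, one_smul, neg_smul] at h00 h01 h10 h11
  simp only [WMod.Rg, WMod.Cg, Fin.sum_univ_two, LinearMap.add_apply, Module.End.mul_apply] at he ⊢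
  fin_cases i <;> fin_cases j <;> simp only [Fin.zero_eta, Fin.mk_one, if_true, zero_ne_one, one_ne_zero, if_false]
  · linear_combination (norm := module) he - h00
  · linear_combination (norm := module) -(1 : ℂ) • h10
  · linear_combination (norm := module) -(1 : ℂ) • h01
  · linear_combination (norm := module) he - h11

theorem v0_E (i j : Fin 2) : Wc.Cg .p i j v0 + Wc.Cg .r i j v0 = if i = j then (-3 : ℂ) • v0 else 0 := by
  have h00 := v0_inv 3 0 0
  have h01 := v0_inv 3 0 1
  have h10 := v0_inv 3 1 0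
  have h11 := v0_inv 3 1 1
  have he := v0_er
  simp only [f4_30, kaT0, kaT3, ep0, ep00, ep11, ep301, ep310, f2_0, f2_1, Fin.sum_univ_two, mul_one,
    one_mul, neg_mul, mul_neg, neg_neg, one_smul, neg_smul] at h00 h01 h10 h11
  simp only [WMod.Rg, WMod.Cg, Fin.sum_univ_two, LinearMap.add_apply, Module.End.mul_apply] at he ⊢
  fin_cases i <;> fin_cases j <;> simp only [Fin.zero_eta, Fin.mk_one, if_true, zero_ne_one, one_ne_zero, if_false]
  · linear_combination (norm := module) he + h00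
  · linear_combination (norm := module) h01
  · linear_combination (norm := module) h10
  · linear_combination (norm := module) he + h11

theorem mm_ap (N : Bk) (s t : Fin 2) : mm N s t = X (N, s, t) := rfl

theorem v0_kp (i j : Fin 2) : Wc.x ((mm .ka * mm .p) i j) v0 = 0 := by
  have h := v0_prod 0 j i
  simp only [f4_01, kaT0, kaT1, ep0, ep1, Fin.sum_univ_two, mul_one, C_1, one_mul] at h
  have e : (mm .ka * mm .p) i j = X (.p, 0, j) * X (.ka, i, 0) + X (.p, 1, j) * X (.ka, i, 1) := by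
    rw [Matrix.mul_apply, Fin.sum_univ_two, mm_ap, mm_ap, mm_ap, mm_ap]
    ring
  rw [e]
  exact h

theorem v0_zr (i j : Fin 2) : Wc.x ((mm .ze * mm .r) i j) v0 = 0 := by
  have h00 := v0_prod 2 0 0
  have h01 := v0_prod 2 0 1
  have h10 := v0_prod 2 1 0
  have h11 := v0_prod 2 1 1
  simp only [f4_23, kaT2, kaT3, ep00, ep11, ep201, ep210, ep301, ep310, f2_0, f2_1, Fin.sum_univ_two, mul_one,
    one_mul, neg_mul, mul_neg, neg_neg, C_1, C_neg, map_neg, map_add, LinearMap.add_apply, LinearMap.neg_apply]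
    at h00 h01 h10 h11
  rw [Matrix.mul_apply, Fin.sum_univ_two, mm_ap, mm_ap, mm_ap, mm_ap, map_add, LinearMap.add_apply]
  fin_cases i <;> fin_cases j <;> simp only [Fin.zero_eta, Fin.mk_one]
  · linear_combination (norm := module) h11
  · linear_combination (norm := module) -(1 : ℂ) • h10
  · linear_combination (norm := module) -(1 : ℂ) • h01
  · linear_combination (norm := module) h00

/-- The mixed minors of the rows of `(p; r)`. -/
theorem v0_mpr (b i : Fin 2) : Wc.x (X (.p, b, 0) * X (.r, i, 1) - X (.p, b, 1) * X (.r, i, 0)) v0 = 0 := by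
  have h0 := v0_prod 3 0 b
  have h1 := v0_prod 3 1 b
  simp only [f4_30, kaT0, kaT3, ep0, ep00, ep11, ep301, ep310, f2_0, f2_1, Fin.sum_univ_two, mul_one,
    one_mul, neg_mul, mul_neg, neg_neg, C_1, map_neg, map_add, LinearMap.add_apply, LinearMap.neg_apply] at h0 h1
  rw [map_sub, LinearMap.sub_apply, mul_comm (X (Bk.p, b, 0) : Ach),
    mul_comm (X (Bk.p, b, 1) : Ach)]
  fin_cases i <;> simp only [Fin.zero_eta, Fin.mk_one]
  · linear_combination (norm := module) -(1 : ℂ) • h1
  · linear_combination (norm := module) h0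

/-- The mixed minors of the columns of `(ka, ze)`. -/
theorem v0_mkz (a j : Fin 2) : Wc.x (X (.ka, 0, a) * X (.ze, 1, j) - X (.ka, 1, a) * X (.ze, 0, j)) v0 = 0 := by
  have h0 := v0_prod 1 a 0
  have h1 := v0_prod 1 a 1
  simp only [f4_12, kaT1, kaT2, ep1, ep00, ep11, ep201, ep210, f2_0, f2_1, Fin.sum_univ_two, mul_one,
    one_mul, neg_mul, mul_neg, neg_neg, C_1, map_neg, map_add, LinearMap.add_apply, LinearMap.neg_apply] at h0 h1
  rw [map_sub, LinearMap.sub_apply]
  fin_cases j <;> simp only [Fin.zero_eta, Fin.mk_one]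
  · linear_combination (norm := module) -(1 : ℂ) • h1
  · linear_combination (norm := module) h0

end Pool.DM
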