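import Pool.Agent.Work.MP_c20ce7_bA.Vec

set_option autoImplicit false
set_option linter.unusedSectionVars false

/-!
# BASE, the vector `v = Δ^(-1/2)` with signed coordinates (helper69)

The coordinates of `M_2(ℂ)^4` are `ε_q X_(κ q)`, `ε_q = ±1`, `κ` injective.
-/

open MvPolynomial

noncomputable section

namespace Pool.DM

variable {σ : Type} [Fintype σ] [DecidableEq σ] {L : Type} [AddCommGroup L] [Module ℂ L]

/-- The substitution `X_q ↦ ε_q X_(κ q)`. -/
def psS (κ : Q4 → σ) (ε : Q4 → ℂ) : MvPolynomial Q4 ℂ →ₐ[ℂ] MvPolynomial σ ℂ :=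
  aeval fun q => C (ε q) * X (κ q)

theorem psS_X (κ : Q4 → σ) (ε : Q4 → ℂ) (q : Q4) : psS κ ε (X q) = C (ε q) * X (κ q) := by
  rw [psS, aeval_X]

theorem psS_pd {κ : Q4 → σ} (hκ : Function.Injective κ) (ε : Q4 → ℂ) (q : Q4) (p : MvPolynomial Q4 ℂ) :
    pderiv (κ q) (psS κ ε p) = C (ε q) * psS κ ε (pderiv q p) := by
  induction p using MvPolynomial.induction_on with
  | C a =>
    rw [← MvPolynomial.algebraMap_eq, AlgHom.commutes, MvPolynomial.algebraMap_eq, MvPolynomial.algebraMap_eq,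
      pderiv_C, pderiv_C, map_zero, mul_zero]
  | add p r hp hr => rw [map_add, map_add, hp, hr, map_add, map_add, mul_add]
  | mul_X p l hp =>
    rw [map_mul, Derivation.leibniz, Derivation.leibniz, hp, psS_X, Derivation.leibniz, pderiv_C]
    by_cases h : q = l
    · rw [← h, pderiv_X_self, pderiv_X_self]
      simp only [smul_eq_mul, mul_one, mul_zero, add_zero, map_add, map_mul, psS_X]
      ring
    · rw [pderiv_X_of_ne (fun h' => h (hκ h').symm), pderiv_X_of_ne (Ne.symm h)]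
      simp only [smul_eq_mul, mul_zero, add_zero, zero_add, map_mul, psS_X]
      ring

theorem psS_pd_N {κ : Q4 → σ} (ε : Q4 → ℂ) {k : σ} (hk : ∀ q, κ q ≠ k) (p : MvPolynomial Q4 ℂ) :
    pderiv k (psS κ ε p) = 0 := by
  induction p using MvPolynomial.induction_on with
  | C a =>
    rw [← MvPolynomial.algebraMap_eq, AlgHom.commutes, MvPolynomial.algebraMap_eq, pderiv_C]
  | add p r hp hr => rw [map_add, map_add, hp, hr, add_zero]
  | mul_X p l hp =>
    rw [map_mul, Derivation.leibniz, hp, psS_X, Derivation.leibniz, pderiv_C, pderiv_X_of_ne (hk l)]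
    simp

/-- `Δ` in the signed coordinates. -/
def DelS (κ : Q4 → σ) (ε : Q4 → ℂ) : MvPolynomial σ ℂ := psS κ ε Del

section

variable {κ : Q4 → σ} {ε : Q4 → ℂ} {W : WMod σ L} {v : L}

/-- The hypotheses on `v`. -/
structure VS (κ : Q4 → σ) (ε : Q4 → ℂ) (W : WMod σ L) (v : L) : Prop where
  inj : Function.Injective κ
  sgn : ∀ q, ε q * ε q = 1
  dinj : Function.Injective (W.x (DelS κ ε))
  d : ∀ q : Q4, W.x (DelS κ ε) (W.d (X (κ q)) v) = (-(1 / 2) : ℂ) • W.x (pderiv (κ q) (DelS κ ε)) v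

theorem VS.d' (h : VS κ ε W v) (q : Q4) :
    W.x (DelS κ ε) (W.d (psS κ ε (X q)) v) = (-(1 / 2) : ℂ) • W.x (psS κ ε (pderiv q Del)) v := by
  rw [psS_X, ← smul_eq_C_mul, map_smul, LinearMap.smul_apply, map_smul, h.d, DelS, psS_pd h.inj, ← smul_eq_C_mul,
    map_smul, LinearMap.smul_apply, smul_smul, smul_smul, mul_right_comm, h.sgn, one_mul]

theorem VS.dd (h : VS κ ε W v) (q r : Q4) :
    W.x (DelS κ ε ^ 2) (W.d (psS κ ε (X q * X r)) v) =
      W.x (psS κ ε (C (-(1 / 2)) * Del * pderiv q (pderiv r Del) +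
        C (3 / 4) * (pderiv q Del * pderiv r Del))) v := by
  have h1 := W.dd_pow (h.d q) (h.d r)
  have e1 : psS κ ε (X q * X r) = (ε q * ε r) • (X (κ q) * X (κ r)) := by
    rw [map_mul, psS_X, psS_X, smul_eq_C_mul, C_mul]
    ring
  have hC : ∀ a : ℂ, psS κ ε (C a) = C a := fun a => by
    rw [← MvPolynomial.algebraMap_eq, AlgHom.commutes, MvPolynomial.algebraMap_eq]
  rw [e1, map_smul, LinearMap.smul_apply, map_smul, h1, ← LinearMap.smul_apply, ← map_smul]
  congr 2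
  rw [DelS, psS_pd h.inj, psS_pd h.inj, pderiv_C_mul, psS_pd h.inj, smul_eq_C_mul, C_mul]
  have e2 : (C (-(1 / 2) * (-(1 / 2) - 1)) : MvPolynomial σ ℂ) = C (3 / 4) := by norm_num
  rw [e2]
  simp only [map_add, map_mul, hC]
  have e3 : (C (ε q) * C (ε q) : MvPolynomial σ ℂ) = 1 := by rw [← C_mul, h.sgn, C_1]
  have e4 : (C (ε r) * C (ε r) : MvPolynomial σ ℂ) = 1 := by rw [← C_mul, h.sgn, C_1]
  generalize psS κ ε (pderiv q (pderiv r Del)) = z1
  generalize psS κ ε (pderiv q Del) = z2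
  generalize psS κ ε (pderiv r Del) = z3
  generalize psS κ ε Del = z4
  generalize (C (ε q) : MvPolynomial σ ℂ) = s1 at *
  generalize (C (ε r) : MvPolynomial σ ℂ) = s2 at *
  linear_combination (s2 * s2 * C (-(1 / 2)) * z4 * z1 + s2 * s2 * C (3 / 4) * (z2 * z3)) * e3 +
    (C (-(1 / 2)) * z4 * z1 + C (3 / 4) * (z2 * z3)) * e4

theorem VS.inj2 (h : VS κ ε W v) : Function.Injective (W.x (DelS κ ε ^ 2)) := by
  rw [pow_two, map_mul]
  exact h.dinj.comp h.dinj

/-- `det(∂_(B_i)) v = 0`. -/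
theorem VS.det (h : VS κ ε W v) (i : Fin 4) :
    W.d (psS κ ε (X (i, 0, 0) * X (i, 1, 1) - X (i, 0, 1) * X (i, 1, 0))) v = 0 := by
  apply h.inj2
  rw [map_zero, map_sub, map_sub, LinearMap.sub_apply, map_sub, mul_comm (X (i, 0, 0)) _,
    mul_comm (X (i, 0, 1)) _, h.dd, h.dd, ← LinearMap.sub_apply, ← map_sub, ← map_sub]
  have h0 : (C (-(1 / 2)) * Del * pderiv (i, 1, 1) (pderiv (i, 0, 0) Del) +
        C (3 / 4) * (pderiv (i, 1, 1) Del * pderiv (i, 0, 0) Del) -
      (C (-(1 / 2)) * Del * pderiv (i, 1, 0) (pderiv (i, 0, 1) Del) +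
        C (3 / 4) * (pderiv (i, 1, 0) Del * pderiv (i, 0, 1) Del)) : MvPolynomial Q4 ℂ) = 0 := by
    have e1 : (C (-(1 / 2)) : MvPolynomial Q4 ℂ) = C (-(1 / 4)) * 2 := by
      rw [show (2 : MvPolynomial Q4 ℂ) = C 2 from (map_ofNat C 2).symm, ← C_mul]
      norm_num
    have e2 : (C (3 / 4) : MvPolynomial Q4 ℂ) = - (C (-(1 / 4)) * 3) := by
      rw [show (3 : MvPolynomial Q4 ℂ) = C 3 from (map_ofNat C 3).symm, ← C_mul, ← C_neg]
      norm_num
    rw [e1, e2]
    linear_combination C (-(1 / 4)) * Del_dd i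
  rw [h0, map_zero, map_zero, LinearMap.zero_apply]

/-- `∑_b ∂_(i,a,b) ∂_(i+1,b,c) v = 0`. -/
theorem VS.prod (h : VS κ ε W v) (i : Fin 4) (a c : Fin 2) :
    W.d (psS κ ε (X (i, a, 0) * X (i + 1, 0, c) + X (i, a, 1) * X (i + 1, 1, c))) v = 0 := by
  apply h.inj2
  rw [map_zero, map_add, map_add, LinearMap.add_apply, map_add, mul_comm (X (i, a, 0)) _,
    mul_comm (X (i, a, 1)) _, h.dd, h.dd, ← LinearMap.add_apply, ← map_add, ← map_add]
  have h0 : (C (-(1 / 2)) * Del * pderiv (i + 1, 0, c) (pderiv (i, a, 0) Del) +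
        C (3 / 4) * (pderiv (i + 1, 0, c) Del * pderiv (i, a, 0) Del) +
      (C (-(1 / 2)) * Del * pderiv (i + 1, 1, c) (pderiv (i, a, 1) Del) +
        C (3 / 4) * (pderiv (i + 1, 1, c) Del * pderiv (i, a, 1) Del)) : MvPolynomial Q4 ℂ) = 0 := by
    have e1 : (C (-(1 / 2)) : MvPolynomial Q4 ℂ) = C (-(1 / 4)) * 2 := by
      rw [show (2 : MvPolynomial Q4 ℂ) = C 2 from (map_ofNat C 2).symm, ← C_mul]
      norm_num
    have e2 : (C (3 / 4) : MvPolynomial Q4 ℂ) = - (C (-(1 / 4)) * 3) := by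
      rw [show (3 : MvPolynomial Q4 ℂ) = C 3 from (map_ofNat C 3).symm, ← C_mul, ← C_neg]
      norm_num
    have e3 := Del_de i a c
    rw [Fin.sum_univ_two, Fin.sum_univ_two] at e3
    rw [e1, e2]
    linear_combination C (-(1 / 4)) * e3
  rw [h0, map_zero, map_zero, LinearMap.zero_apply]

theorem VS.key (h : VS κ ε W v) (p : MvPolynomial σ ℂ) (q : Q4) :
    W.x (DelS κ ε) (W.x p (W.d (psS κ ε (X q)) v)) =
      (-(1 / 2) : ℂ) • W.x (p * psS κ ε (pderiv q Del)) v := by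
  rw [W.x_x_app, mul_comm, ← W.x_x_app, h.d', map_smul, W.x_x_app]

/-- The invariance of `v` under `gl_2` at the vertex between `B_i` and `B_(i+1)`. -/
theorem VS.invar (h : VS κ ε W v) (i : Fin 4) (a b : Fin 2) :
    ∑ c, W.x (psS κ ε (X (i + 1, b, c))) (W.d (psS κ ε (X (i + 1, a, c))) v) =
      ∑ c, W.x (psS κ ε (X (i, c, a))) (W.d (psS κ ε (X (i, c, b))) v) := by
  apply h.dinj
  rw [map_sum, map_sum]
  simp only [h.key]
  rw [← Finset.smul_sum, ← Finset.smul_sum, ← LinearMap.sum_apply, ← LinearMap.sum_apply, ← map_sum, ← map_sum]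
  have h1 := congrArg (psS κ ε) (Del_inv i a b)
  simp only [map_sum, map_mul] at h1
  rw [h1]

/-- `v` is homogeneous of degree `-1` in `B_i`. -/
theorem VS.eul (h : VS κ ε W v) (i : Fin 4) :
    ∑ a, ∑ b, W.x (psS κ ε (X (i, a, b))) (W.d (psS κ ε (X (i, a, b))) v) = - v := by
  apply h.dinj
  simp only [map_sum, h.key]
  simp only [← Finset.smul_sum]
  simp only [← LinearMap.sum_apply, ← map_sum]
  have h1 := congrArg (psS κ ε) (Del_eul i)
  simp only [map_sum, map_mul, map_ofNat] at h1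
  rw [h1, show (2 : MvPolynomial σ ℂ) = C 2 from (map_ofNat C 2).symm, ← smul_eq_C_mul, map_smul,
    LinearMap.smul_apply, map_neg, smul_smul, DelS]
  norm_num

end

end Pool.DM
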