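import Pool.Agent.Work.MP_c20ce7_bA.YM
import Pool.Agent.Work.MP_c20ce7_bA.VecS
import Pool.Agent.Work.MP_c20ce7_dm82.ChartDefs
import Pool.Agent.Work.MP_c20ce7_dm77.Tw
import Pool.Agent.Work.MP_c20ce7_up.B_FEX

set_option autoImplicit false
set_option linter.unusedSectionVars false

/-!
# BASE, the source module on the chart (helper69): definitions

* `SlT k`: `k` is a slice variable (an entry of `p`, `r`, `ze`, `ka`).
* `DelT`: the polynomial `Δ` of the four dual slice matrices; `GT = q0 Δ`.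
* `BMod`: the vector space `ℂ[t, y, 1/(q0 Δ)]`; `WB`: the module `ℂ[t, y, 1/(q0 Δ)] Δ^(-1/2)` (`y`: the dual slice
  variables), `v0 = Δ^(-1/2)`.
* `Wc`: the partial Fourier transform of `WB` in the slice variables: `Wc.x y_k = WB.d y_k`, `Wc.d y_k = -WB.x y_k`.
* `V0 = det(a)^-2 det(q)^-1 det(u)^-4 det(l)^-2 v0`.
-/

open MvPolynomial

noncomputable section

namespace Pool.DM

attribute [local instance] instAddCommGroupM instModuleMvPolynomialComplexM instModuleComplexLoc

/-- The slice variables. -/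
def SlT (k : Tau) : Prop := k.1 = .p ∨ k.1 = .r ∨ k.1 = .ze ∨ k.1 = .ka

instance : DecidablePred SlT := fun k => by unfold SlT; infer_instance

/-- The names of the coordinates of `M_2(ℂ)^4`: `B_0 = p*`, `B_1 = ka*` (transposed), `B_2 = adj(ze*)`,
`B_3 = adj(r*)`. -/
def kaT (q : Q4) : Tau :=
  ![(.p, q.2.2, q.2.1), (.ka, q.2.2, q.2.1), (.ze, 1 - q.2.1, 1 - q.2.2), (.r, 1 - q.2.1, 1 - q.2.2)] q.1

/-- The signs. -/
def epT (q : Q4) : ℂ := if q.1 = 0 ∨ q.1 = 1 ∨ q.2.1 = q.2.2 then 1 else -1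

theorem kaT_inj : Function.Injective kaT := by
  decide

theorem kaT_sl (q : Q4) : SlT (kaT q) := by
  revert q
  decide

theorem sl_kaT (k : Tau) (hk : SlT k) : ∃ q, kaT q = k := by
  revert hk
  revert k
  decide

theorem epT_sq (q : Q4) : epT q * epT q = 1 := by
  unfold epT
  split_ifs <;> norm_num

/-- `Δ` in the dual slice variables. -/
def DelT : Ach := DelS kaT epT

/-- The denominator. -/
def GT : Ach := q0 * DelT

/-- The space `ℂ[t, y, 1/(q0 Δ)]`. -/
abbrev BMod : Type := PW GT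

theorem DelT_bij : Function.Bijective ((WMod.pl GT).x DelT) := by
  have h := (pl_isLoc GT).bij
  have e : (WMod.pl GT).x GT = (WMod.pl GT).x q0 * (WMod.pl GT).x DelT := by
    rw [← map_mul]
    rfl
  have e' : (WMod.pl GT).x GT = (WMod.pl GT).x DelT * (WMod.pl GT).x q0 := by
    rw [← map_mul, mul_comm]
    rfl
  refine ⟨?_, ?_⟩
  · have h1 := h.1
    rw [e] at h1
    exact Function.Injective.of_comp (f := (WMod.pl GT).x q0) h1
  · have h1 := h.2
    rw [e'] at h1
    exact Function.Surjective.of_comp (g := (WMod.pl GT).x q0) h1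

/-- The module `ℂ[t, y, 1/(q0 Δ)] Δ^(-1/2)`. -/
def WB : WMod Tau BMod := (WMod.pl GT).tw DelT DelT_bij (-(1 / 2))

/-- The vector `Δ^(-1/2)`. -/
def v0 : BMod := pmk GT 1 0

/-- The partial Fourier transform of `WB` in the slice variables. -/
def Wc : WMod Tau BMod :=
  WMod.mk' (FEX_x WB SlT) (FEX_d WB SlT) (FEX_hx WB SlT) (FEX_hd WB SlT) (FEX_hc WB SlT)

theorem Wc_four : IsFour SlT WB Wc where
  xA k hk := by
    rw [Wc, mk'_x]
    unfold FEX_x
    rw [if_pos hk]
  dA k hk := by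
    rw [Wc, mk'_d]
    unfold FEX_d
    rw [if_pos hk]
  xN k hk := by
    rw [Wc, mk'_x]
    unfold FEX_x
    rw [if_neg hk]
  dN k hk := by
    rw [Wc, mk'_d]
    unfold FEX_d
    rw [if_neg hk]

/-- `det(a)^-2 det(q)^-1 det(u)^-4 det(l)^-2 v0`. -/
def V0 : BMod := pmk GT ((mm .a).det ^ 2 * (mm .q).det ^ 3 * (mm .l).det ^ 2 * DelT ^ 4) 4

end Pool.DM
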