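import Pool.Agent.Work.MP_c20ce7_bA.Del

set_option autoImplicit false
set_option linter.unusedSectionVars false

/-!
# BASE, the vector `v = Δ^(-1/2)` (helper69)

All statements are about an arbitrary module with a vector `v` such that `f ∂_i v = c (∂_i f) v`. The coordinates of
`M_2(ℂ)^4` are embedded into the coordinates `σ` by an injective map `κ`.
-/

open MvPolynomial

noncomputable section

namespace Pool.DM

variable {σ : Type} [Fintype σ] [DecidableEq σ] {L : Type} [AddCommGroup L] [Module ℂ L]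

theorem WMod.d_x_app (W : WMod σ L) (i : σ) (f : MvPolynomial σ ℂ) (u : L) :
    W.d (X i) (W.x f u) = W.x f (W.d (X i) u) + W.x (pderiv i f) u := by
  have h := LinearMap.congr_fun (W.d_mul_x i f) u
  simpa only [Module.End.mul_apply, LinearMap.add_apply] using h

theorem WMod.x_x_app (W : WMod σ L) (f g : MvPolynomial σ ℂ) (u : L) :
    W.x f (W.x g u) = W.x (f * g) u := by
  rw [map_mul, Module.End.mul_apply]

/-- Second derivatives of a power of `f`. -/
theorem WMod.dd_pow (W : WMod σ L) {f : MvPolynomial σ ℂ} {c : ℂ} {v : L} {i j : σ}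
    (hi : W.x f (W.d (X i) v) = c • W.x (pderiv i f) v) (hj : W.x f (W.d (X j) v) = c • W.x (pderiv j f) v) :
    W.x (f ^ 2) (W.d (X i * X j) v) =
      W.x (C c * f * pderiv i (pderiv j f) + C (c * (c - 1)) * (pderiv i f * pderiv j f)) v := by
  have e1 := congrArg (W.d (X i)) hj
  rw [W.d_x_app, map_smul, W.d_x_app] at e1
  have e2 := congrArg (W.x f) e1
  rw [map_add, map_smul, map_add, W.x_x_app f (pderiv j f), mul_comm f (pderiv j f), ← W.x_x_app _ f, hi,
    W.x_x_app f (pderiv i f), mul_comm f (pderiv i f), ← W.x_x_app (pderiv i f) f, hj, map_smul, map_smul] at e2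
  simp only [W.x_x_app] at e2
  have e3 : W.x (f ^ 2) (W.d (X i * X j) v) = W.x (f * f) (W.d (X i) (W.d (X j) v)) := by
    rw [← pow_two, map_mul W.d, Module.End.mul_apply]
  rw [e3, eq_sub_of_add_eq e2]
  have hC : ∀ (a : ℂ) (p : MvPolynomial σ ℂ), W.x (C a * p) v = a • W.x p v := by
    intro a p
    rw [← smul_eq_C_mul, map_smul, LinearMap.smul_apply]
  rw [mul_assoc, map_add, LinearMap.add_apply, hC, hC, mul_comm (pderiv j f) (pderiv i f)]
  module

section Four

variable (κ : Q4 → σ) (hκ : Function.Injective κ)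

/-- `Δ` in the coordinates `σ`. -/
def DelK : MvPolynomial σ ℂ := rename κ Del

theorem DelK_pd (hκ : Function.Injective κ) (q : Q4) (p : MvPolynomial Q4 ℂ) :
    pderiv (κ q) (rename κ p) = rename κ (pderiv q p) := pderiv_rename hκ q p

variable {W : WMod σ L} {v : L}

/-- `det(∂_(B_i)) v = 0`. -/
theorem v_det (hκ : Function.Injective κ) (hinj : Function.Injective (W.x (DelK κ)))
    (hv : ∀ q : Q4, W.x (DelK κ) (W.d (X (κ q)) v) = (-(1 / 2) : ℂ) • W.x (pderiv (κ q) (DelK κ)) v)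
    (i : Fin 4) :
    W.d (X (κ (i, 0, 0)) * X (κ (i, 1, 1)) - X (κ (i, 0, 1)) * X (κ (i, 1, 0))) v = 0 := by
  have hinj2 : Function.Injective (W.x (DelK κ ^ 2)) := by
    rw [pow_two, map_mul]
    exact hinj.comp hinj
  apply hinj2
  rw [map_zero, map_sub, LinearMap.sub_apply, map_sub, mul_comm (X (κ (i, 0, 0))) _,
    mul_comm (X (κ (i, 0, 1))) _, W.dd_pow (hv _) (hv _), W.dd_pow (hv _) (hv _), ← LinearMap.sub_apply, ← map_sub]
  have h := congrArg (rename κ) (Del_dd i)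
  simp only [map_mul, map_sub, ← DelK_pd κ hκ, map_ofNat] at h
  have h0 : (C (-(1 / 2)) * DelK κ * pderiv (κ (i, 1, 1)) (pderiv (κ (i, 0, 0)) (DelK κ)) +
        C (-(1 / 2) * (-(1 / 2) - 1)) * (pderiv (κ (i, 1, 1)) (DelK κ) * pderiv (κ (i, 0, 0)) (DelK κ)) -
      (C (-(1 / 2)) * DelK κ * pderiv (κ (i, 1, 0)) (pderiv (κ (i, 0, 1)) (DelK κ)) +
        C (-(1 / 2) * (-(1 / 2) - 1)) * (pderiv (κ (i, 1, 0)) (DelK κ) * pderiv (κ (i, 0, 1)) (DelK κ))) :
          MvPolynomial σ ℂ) = 0 := by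
    have e1 : (C (-(1 / 2)) : MvPolynomial σ ℂ) = C (-(1 / 4)) * 2 := by
      rw [show (2 : MvPolynomial σ ℂ) = C 2 from (map_ofNat C 2).symm, ← C_mul]
      norm_num
    have e2 : (C (-(1 / 2) * (-(1 / 2) - 1)) : MvPolynomial σ ℂ) = - (C (-(1 / 4)) * 3) := by
      rw [show (3 : MvPolynomial σ ℂ) = C 3 from (map_ofNat C 3).symm, ← C_mul, ← C_neg]
      norm_num
    rw [e1, e2]
    simp only [DelK]
    linear_combination C (-(1 / 4)) * h
  rw [h0, map_zero, LinearMap.zero_apply]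

/-- `∑_b ∂_(i,a,b) ∂_(i+1,b,c) v = 0`. -/
theorem v_prod (hκ : Function.Injective κ) (hinj : Function.Injective (W.x (DelK κ)))
    (hv : ∀ q : Q4, W.x (DelK κ) (W.d (X (κ q)) v) = (-(1 / 2) : ℂ) • W.x (pderiv (κ q) (DelK κ)) v)
    (i : Fin 4) (a c : Fin 2) :
    W.d (X (κ (i, a, 0)) * X (κ (i + 1, 0, c)) + X (κ (i, a, 1)) * X (κ (i + 1, 1, c))) v = 0 := by
  have hinj2 : Function.Injective (W.x (DelK κ ^ 2)) := by
    rw [pow_two, map_mul]
    exact hinj.comp hinj
  apply hinj2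
  rw [map_zero, map_add, LinearMap.add_apply, map_add, mul_comm (X (κ (i, a, 0))) _,
    mul_comm (X (κ (i, a, 1))) _, W.dd_pow (hv _) (hv _), W.dd_pow (hv _) (hv _), ← LinearMap.add_apply, ← map_add]
  have h := congrArg (rename κ) (Del_de i a c)
  simp only [map_mul, map_add, Fin.sum_univ_two, ← DelK_pd κ hκ, map_ofNat] at h
  have h0 : (C (-(1 / 2)) * DelK κ * pderiv (κ (i + 1, 0, c)) (pderiv (κ (i, a, 0)) (DelK κ)) +
        C (-(1 / 2) * (-(1 / 2) - 1)) * (pderiv (κ (i + 1, 0, c)) (DelK κ) * pderiv (κ (i, a, 0)) (DelK κ)) +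
      (C (-(1 / 2)) * DelK κ * pderiv (κ (i + 1, 1, c)) (pderiv (κ (i, a, 1)) (DelK κ)) +
        C (-(1 / 2) * (-(1 / 2) - 1)) * (pderiv (κ (i + 1, 1, c)) (DelK κ) * pderiv (κ (i, a, 1)) (DelK κ))) :
          MvPolynomial σ ℂ) = 0 := by
    have e1 : (C (-(1 / 2)) : MvPolynomial σ ℂ) = C (-(1 / 4)) * 2 := by
      rw [show (2 : MvPolynomial σ ℂ) = C 2 from (map_ofNat C 2).symm, ← C_mul]
      norm_num
    have e2 : (C (-(1 / 2) * (-(1 / 2) - 1)) : MvPolynomial σ ℂ) = - (C (-(1 / 4)) * 3) := by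
      rw [show (3 : MvPolynomial σ ℂ) = C 3 from (map_ofNat C 3).symm, ← C_mul, ← C_neg]
      norm_num
    rw [e1, e2]
    simp only [DelK]
    linear_combination C (-(1 / 4)) * h
  rw [h0, map_zero, LinearMap.zero_apply]

/-- The invariance of `v` under `gl_2` at the vertex between `B_i` and `B_(i+1)`. -/
theorem v_inv (hκ : Function.Injective κ) (hinj : Function.Injective (W.x (DelK κ)))
    (hv : ∀ q : Q4, W.x (DelK κ) (W.d (X (κ q)) v) = (-(1 / 2) : ℂ) • W.x (pderiv (κ q) (DelK κ)) v)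
    (i : Fin 4) (a b : Fin 2) :
    ∑ c, W.x (X (κ (i + 1, b, c))) (W.d (X (κ (i + 1, a, c))) v) =
      ∑ c, W.x (X (κ (i, c, a))) (W.d (X (κ (i, c, b))) v) := by
  apply hinj
  have key : ∀ (p : MvPolynomial σ ℂ) (q : Q4), W.x (DelK κ) (W.x p (W.d (X (κ q)) v)) =
      (-(1 / 2) : ℂ) • W.x (p * pderiv (κ q) (DelK κ)) v := by
    intro p q
    rw [W.x_x_app, mul_comm, ← W.x_x_app, hv, map_smul, W.x_x_app]
  rw [map_sum, map_sum]
  simp only [key]
  rw [← Finset.smul_sum, ← Finset.smul_sum, ← LinearMap.sum_apply, ← LinearMap.sum_apply, ← map_sum, ← map_sum]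
  have h := congrArg (rename κ) (Del_inv i a b)
  simp only [map_sum, map_mul, rename_X, ← DelK_pd κ hκ] at h
  unfold DelK
  rw [h]

/-- `v` is homogeneous of degree `-1` in `B_i`. -/
theorem v_eul (hκ : Function.Injective κ) (hinj : Function.Injective (W.x (DelK κ)))
    (hv : ∀ q : Q4, W.x (DelK κ) (W.d (X (κ q)) v) = (-(1 / 2) : ℂ) • W.x (pderiv (κ q) (DelK κ)) v)
    (i : Fin 4) : ∑ a, ∑ b, W.x (X (κ (i, a, b))) (W.d (X (κ (i, a, b))) v) = - v := by
  apply hinj
  have key : ∀ (p : MvPolynomial σ ℂ) (q : Q4), W.x (DelK κ) (W.x p (W.d (X (κ q)) v)) =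
      (-(1 / 2) : ℂ) • W.x (p * pderiv (κ q) (DelK κ)) v := by
    intro p q
    rw [W.x_x_app, mul_comm, ← W.x_x_app, hv, map_smul, W.x_x_app]
  simp only [map_sum, key]
  simp only [← Finset.smul_sum]
  simp only [← LinearMap.sum_apply, ← map_sum]
  have h := congrArg (rename κ) (Del_eul i)
  simp only [map_sum, map_mul, rename_X, ← DelK_pd κ hκ, map_ofNat] at h
  unfold DelK
  rw [h, show (2 : MvPolynomial σ ℂ) = C 2 from (map_ofNat C 2).symm, ← smul_eq_C_mul, map_smul, LinearMap.smul_apply, map_neg, smul_smul]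
  norm_num

end Four

end Pool.DM
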